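import Pool.Agent.Q161.ESM.Stm2
import Pool.Agent.Q237.EA.Mom
import Pool.Agent.Q195.EA.Fac
import Pool.Agent.Q195.EA.Omg

/-!
# Project ESM (helper161), job MOM2: high moments
-/

set_option autoImplicit false

namespace Pool.Agent.Q237.ESM

open Finset NumberField IsDedekindDomain Filter
open Pool.Agent.Q161.EA Pool.Agent.Q51.EL Pool.Agent.Q161.ESM
open Pool.Agent.Q237.EA (om_prod)

/-- the numerical inequalities for large `Y` -/
theorem mom_num (b C' U : ℝ) (m : ℕ) (hb : 0 < b) :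
    ∃ Y0 : ℝ, 16 ≤ Y0 ∧ ∀ Y : ℝ, Y0 ≤ Y →
      2 + 2 * Real.log Y ^ b ≤ Real.log Y ^ (2 * b) ∧
      16 * U * Real.log Y ^ m ≤ Real.exp (Real.log Y / 50) ∧
      C' * 2 ≤ Real.exp (37 / 100 * Real.log Y) := by
  have h1 : ∀ᶠ x : ℝ in atTop, 2 + 2 * x ^ b ≤ x ^ (2 * b) := by
    have ht : Tendsto (fun x : ℝ => x ^ b) atTop atTop := tendsto_rpow_atTop hb
    filter_upwards [ht.eventually_ge_atTop 4, eventually_gt_atTop 0] with x hx hx0
    have e : x ^ (2 * b) = x ^ b * x ^ b := by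
      rw [← Real.rpow_add hx0]
      congr 1
      ring
    rw [e]
    nlinarith
  have h2 : ∀ᶠ x : ℝ in atTop, 16 * U * x ^ m ≤ Real.exp (x / 50) := by
    have ht : Tendsto (fun y : ℝ => Real.exp y / y ^ m) atTop atTop :=
      Real.tendsto_exp_div_pow_atTop m
    have ht2 : Tendsto (fun x : ℝ => x / 50) atTop atTop :=
      tendsto_id.atTop_div_const (by norm_num)
    filter_upwards [(ht.comp ht2).eventually_ge_atTop (16 * U * 50 ^ m), eventually_gt_atTop 0]
      with x hx hx0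
    simp only [Function.comp] at hx
    have hx1 : 0 < (x / 50) ^ m := by positivity
    rw [le_div_iff₀ hx1] at hx
    calc 16 * U * x ^ m = 16 * U * 50 ^ m * (x / 50) ^ m := by
          rw [div_pow]
          field_simp
      _ ≤ _ := hx
  have h3 : ∀ᶠ x : ℝ in atTop, C' * 2 ≤ Real.exp (37 / 100 * x) := by
    have ht : Tendsto (fun x : ℝ => Real.exp (37 / 100 * x)) atTop atTop :=
      Real.tendsto_exp_atTop.comp (tendsto_id.const_mul_atTop (by norm_num))
    exact ht.eventually_ge_atTop (C' * 2)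
  obtain ⟨x0, hx0⟩ := eventually_atTop.1 ((h1.and h2).and h3)
  refine ⟨max 16 (Real.exp x0), le_max_left _ _, ?_⟩
  intro Y hY
  have hY1 : Real.exp x0 ≤ Y := (le_max_right _ _).trans hY
  have hY0 : 0 < Y := (Real.exp_pos _).trans_le hY1
  have hx : x0 ≤ Real.log Y := (Real.le_log_iff_exp_le hY0).2 hY1
  obtain ⟨⟨q1, q2⟩, q3⟩ := hx0 _ hx
  exact ⟨q1, q2, q3⟩

section

variable {L : Type} [Field L] [NumberField L]

theorem psi_prod {B : ℕ} {P0 : Set ℕ} {ψ : ℕ → 𝓞 L → ℝ} (hψ : ChP L B P0 ψ) (l : ℕ) :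
    ∀ (k : ℕ) (x : Fin (k + 1) → 𝓞 L), ψ l (∏ i, x i) = ∏ i, ψ l (x i) := by
  intro k
  induction k with
  | zero =>
    intro x
    simp
  | succ k ih =>
    intro x
    rw [Fin.prod_univ_succ, hψ.mul, ih, Fin.prod_univ_succ (n := k + 1) (fun i => ψ l (x i))]

end

open Classical in
/-- the moment inequality -/
theorem mom_core {L : Type} [Field L] [NumberField L] {B : ℕ} {P0 : Set ℕ} {ψ : ℕ → 𝓞 L → ℝ}
    (hψ : ChP L B P0 ψ)
    {C : ℝ} (hC : 0 < C)
    (hlsf : ∀ (W R : ℝ) (P : Finset ℕ) (A : Finset (𝓞 L)) (c : 𝓞 L → ℝ), 1 ≤ W → 1 ≤ R →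
      (∀ l ∈ P, l.Prime ∧ ¬ l ∣ B ∧ l ∈ P0 ∧ (l : ℝ) ≤ R) →
      (∀ α ∈ A, ∀ σ : L →+* ℂ, ‖σ (α : L)‖ ≤ W) →
      ∑ l ∈ P, (∑ α ∈ A, c α * ψ l α) ^ 2 ≤
        (C * (W + R ^ 2)) ^ Module.finrank ℚ L * ∑ α ∈ A, c α ^ 2)
    {Y R : ℝ} (hY : 1 ≤ Y) (hR : 1 ≤ R) (k : ℕ) (hk : 1 ≤ k) (hkR : 4 * R ^ 2 ≤ Y ^ k)
    (A : Finset (𝓞 L)) (hA : ∀ α ∈ A, ∀ σ : L →+* ℂ, ‖σ (α : L)‖ ≤ Y) (P : Finset ℕ)
    (hP : ∀ l ∈ P, l.Prime ∧ ¬ l ∣ B ∧ l ∈ P0 ∧ (l : ℝ) ≤ 2 * R ∧
      (A.card : ℝ) / 4 < |∑ α ∈ A, ψ l α|)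
    {D : ℝ} (hD : ∀ x ∈ Fintype.piFinset (fun _ : Fin k => A),
      (((Fintype.piFinset (fun _ : Fin k => A)).filter (fun y => ∏ i, y i = ∏ i, x i)).card : ℝ) ≤ D) :
    (P.card : ℝ) * (((A.card : ℝ) / 4) ^ k) ^ 2 ≤
      (2 * C * Y ^ k) ^ Module.finrank ℚ L * (D * (A.card : ℝ) ^ k) := by
  set F := Fintype.piFinset (fun _ : Fin k => A) with hF
  set A2 := F.image (fun x => ∏ i, x i) with hA2
  set c : 𝓞 L → ℝ := fun a => ((F.filter (fun y => ∏ i, y i = a)).card : ℝ) with hc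
  have hYk : 1 ≤ Y ^ k := one_le_pow₀ hY
  have h1 := hlsf (Y ^ k) (2 * R) P A2 c hYk (by linarith)
    (fun l hl => ⟨(hP l hl).1, (hP l hl).2.1, (hP l hl).2.2.1, (hP l hl).2.2.2.1⟩)
    (by
      intro a ha σ
      rw [hA2, Finset.mem_image] at ha
      obtain ⟨x, hx, rfl⟩ := ha
      rw [hF, Fintype.mem_piFinset] at hx
      show ‖σ ((algebraMap (𝓞 L) L) (∏ i, x i))‖ ≤ Y ^ k
      rw [map_prod, map_prod, norm_prod]
      calc ∏ i, ‖σ ((algebraMap (𝓞 L) L) (x i))‖ ≤ ∏ _i : Fin k, Y :=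
            Finset.prod_le_prod (fun i _ => norm_nonneg _) fun i _ => hA _ (hx i) σ
        _ = Y ^ k := by rw [Finset.prod_const, Finset.card_univ, Fintype.card_fin])
  -- the power
  have h2 : ∀ l ∈ P, (∑ a ∈ A2, c a * ψ l a) = (∑ α ∈ A, ψ l α) ^ k := by
    intro l _
    have e1 : (∑ α ∈ A, ψ l α) ^ k = ∑ x ∈ F, ψ l (∏ i, x i) := by
      have e2 : (∑ α ∈ A, ψ l α) ^ k = ∏ _i : Fin k, ∑ α ∈ A, ψ l α := by
        rw [Finset.prod_const, Finset.card_univ, Fintype.card_fin]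
      rw [e2, Finset.prod_univ_sum]
      refine Finset.sum_congr rfl fun x _ => ?_
      obtain ⟨k', rfl⟩ : ∃ k', k = k' + 1 := ⟨k - 1, by omega⟩
      rw [psi_prod hψ]
    rw [e1, Finset.sum_comp (fun a => ψ l a) (fun x : Fin k → 𝓞 L => ∏ i, x i)]
    refine Finset.sum_congr rfl fun a _ => ?_
    rw [nsmul_eq_mul]
  have h3 : (P.card : ℝ) * (((A.card : ℝ) / 4) ^ k) ^ 2 ≤ ∑ l ∈ P, (∑ a ∈ A2, c a * ψ l a) ^ 2 := by
    rw [← nsmul_eq_mul]
    refine Finset.card_nsmul_le_sum _ _ _ fun l hl => ?_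
    rw [h2 l hl]
    have e1 := (hP l hl).2.2.2.2.le
    have e2 : ((A.card : ℝ) / 4) ^ k ≤ |∑ α ∈ A, ψ l α| ^ k :=
      pow_le_pow_left₀ (by positivity) e1 k
    calc (((A.card : ℝ) / 4) ^ k) ^ 2 ≤ (|∑ α ∈ A, ψ l α| ^ k) ^ 2 :=
          pow_le_pow_left₀ (by positivity) e2 2
      _ = ((∑ α ∈ A, ψ l α) ^ k) ^ 2 := by rw [← abs_pow, sq_abs]
  have h4 : ∑ a ∈ A2, c a ^ 2 ≤ D * (A.card : ℝ) ^ k := by
    have e1 : ∑ a ∈ A2, c a = (A.card : ℝ) ^ k := by
      have e2 := Finset.card_eq_sum_card_image (fun x : Fin k → 𝓞 L => ∏ i, x i) F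
      have e3 : F.card = A.card ^ k := by
        rw [hF, Fintype.card_piFinset, Finset.prod_const, Finset.card_univ, Fintype.card_fin]
      rw [e3] at e2
      have e4 : ((A.card ^ k : ℕ) : ℝ) = ∑ a ∈ A2, c a := by
        rw [e2]
        push_cast
        rfl
      rw [← e4]
      push_cast
      rfl
    calc ∑ a ∈ A2, c a ^ 2 ≤ ∑ a ∈ A2, D * c a := by
          refine Finset.sum_le_sum fun a ha => ?_
          rw [sq]
          refine mul_le_mul_of_nonneg_right ?_ (Nat.cast_nonneg _)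
          rw [hA2, Finset.mem_image] at ha
          obtain ⟨x, hx, rfl⟩ := ha
          exact hD x hx
      _ = D * (A.card : ℝ) ^ k := by rw [← Finset.mul_sum, e1]
  have h5 : (C * (Y ^ k + (2 * R) ^ 2)) ^ Module.finrank ℚ L ≤
      (2 * C * Y ^ k) ^ Module.finrank ℚ L := by
    refine pow_le_pow_left₀ (by positivity) ?_ _
    nlinarith
  calc (P.card : ℝ) * (((A.card : ℝ) / 4) ^ k) ^ 2 ≤ _ := h3
    _ ≤ (C * (Y ^ k + (2 * R) ^ 2)) ^ Module.finrank ℚ L * ∑ a ∈ A2, c a ^ 2 := h1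
    _ ≤ (2 * C * Y ^ k) ^ Module.finrank ℚ L * ∑ a ∈ A2, c a ^ 2 :=
        mul_le_mul_of_nonneg_right h5 (Finset.sum_nonneg fun a _ => sq_nonneg _)
    _ ≤ _ := mul_le_mul_of_nonneg_left h4 (by positivity)

open Classical in
/-- JOB MOM2 -/
theorem mom2 : S_LSF2 → S_MOM2 := by
  intro hLSF L _ _ B P0 ψ K a hψ
  have hFAC := Pool.Agent.Q195.EA.Fac.fac
  have hOMG := Pool.Agent.Q195.EA.Omg.omg
  obtain ⟨m, hm⟩ : ∃ m : ℕ, a ≤ m := ⟨⌈a⌉₊, Nat.le_ceil a⟩
  obtain ⟨C, hC, hlsf⟩ := hLSF L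
  obtain ⟨U, hU, hfac⟩ := hFAC L K
  obtain ⟨C4, hC4, homg⟩ := hOMG L K
  obtain ⟨b, hb⟩ : ∃ b : ℝ, b = 1 / (100 * (C4 + 1)) := ⟨_, rfl⟩
  have hb0 : 0 < b := by rw [hb]; positivity
  have hbC : 2 * b * C4 ≤ 1 / 50 := by
    rw [hb]
    have h1 : 0 < 100 * (C4 + 1) := by positivity
    rw [mul_one_div, div_mul_eq_mul_div, div_le_div_iff₀ h1 (by norm_num)]
    nlinarith
  obtain ⟨Y0, hY0, hnum⟩ := mom_num b ((2 * C) ^ Module.finrank ℚ L) U m hb0
  refine ⟨b, Y0, hb0, hY0, ?_⟩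
  intro Y R A P hY hYR hRb hA hAc hP
  obtain ⟨n1, n2, n3⟩ := hnum Y hY
  have hY16 : 16 ≤ Y := hY0.trans hY
  have hYpos : 0 < Y := by linarith
  obtain ⟨x, hx⟩ : ∃ x, x = Real.log Y := ⟨_, rfl⟩
  rw [← hx] at n1 n2 n3 hRb hAc
  have hlog16 : Real.log 16 ≤ x := by
    rw [hx]
    exact Real.log_le_log (by norm_num) hY16
  have hl2 := Real.log_two_gt_d9
  have h16 : Real.log 16 = 4 * Real.log 2 := by
    rw [show (16 : ℝ) = 2 ^ 4 by norm_num, Real.log_pow]
    norm_num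
  have h4 : Real.log 4 = 2 * Real.log 2 := by
    rw [show (4 : ℝ) = 2 ^ 2 by norm_num, Real.log_pow]
    norm_num
  have hx27 : 2.77 ≤ x := by linarith
  have hx0 : 0 < x := by linarith
  replace hAc : Y ^ Module.finrank ℚ L ≤ (A.card : ℝ) * x ^ m := by
    refine hAc.trans (mul_le_mul_of_nonneg_left ?_ (Nat.cast_nonneg _))
    rw [← Real.rpow_natCast]
    exact Real.rpow_le_rpow_of_exponent_le (by linarith) hm
  have hlx : 1 ≤ Real.log x := by
    rw [Real.le_log_iff_exp_le hx0]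
    have := Real.exp_one_lt_d9
    linarith
  have hsY : 1 ≤ Real.sqrt Y := by
    rw [Real.one_le_sqrt]
    linarith
  have hR1 : 1 ≤ R := hsY.trans hYR
  have hRpos : 0 < R := by linarith
  have hYR2 : Y ≤ R ^ 2 := by
    have := Real.sq_sqrt hYpos.le
    calc Y = Real.sqrt Y ^ 2 := this.symm
      _ ≤ R ^ 2 := pow_le_pow_left₀ (Real.sqrt_nonneg _) hYR 2
  have hxR : x ≤ 2 * Real.log R := by
    have h1 := Real.log_le_log hYpos hYR2
    rw [Real.log_pow] at h1
    push_cast at h1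
    rw [hx]
    exact h1
  -- the exponent `k`
  obtain ⟨t, ht⟩ : ∃ t, t = (Real.log 4 + 2 * Real.log R) / x := ⟨_, rfl⟩
  have htx : t * x = Real.log 4 + 2 * Real.log R := by
    rw [ht]
    field_simp
  obtain ⟨k, hk⟩ : ∃ k : ℕ, k = max ⌈t⌉₊ 2 := ⟨_, rfl⟩
  have hk2 : 2 ≤ k := by rw [hk]; exact le_max_right _ _
  have hkt : t ≤ k := by
    rw [hk]
    exact (Nat.le_ceil t).trans (by exact_mod_cast le_max_left _ _)
  have hlR0 : 0 ≤ Real.log R := Real.log_nonneg hR1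
  have ht0 : 0 ≤ t := by
    rw [ht]
    apply div_nonneg _ hx0.le
    have : 0 ≤ Real.log 4 := Real.log_nonneg (by norm_num)
    linarith
  have hxb : 1 ≤ x ^ b := Real.one_le_rpow (by linarith) hb0.le
  have hx1b : x ^ (1 + b) = x * x ^ b := by
    rw [Real.rpow_add hx0, Real.rpow_one]
  have htb : t ≤ 1 + 2 * x ^ b := by
    rw [ht, div_le_iff₀ hx0]
    rw [hx1b] at hRb
    have : Real.log 4 ≤ x := by linarith
    nlinarith
  have hkb : (k : ℝ) ≤ 2 + 2 * x ^ b := by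
    rw [hk]
    push_cast
    apply max_le
    · have := (Nat.ceil_lt_add_one ht0).le
      linarith
    · linarith
  have hkx : (k : ℝ) * x ≤ Real.log 4 + 4 * Real.log R := by
    rcases le_total ⌈t⌉₊ 2 with h | h
    · have hk' : (k : ℝ) = 2 := by
        rw [hk, max_eq_right h]
        norm_num
      rw [hk']
      have : 0 ≤ Real.log 4 := Real.log_nonneg (by norm_num)
      linarith
    · have hk' : (k : ℝ) = (⌈t⌉₊ : ℝ) := by
        rw [hk, max_eq_left h]
      rw [hk']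
      have h1 := (Nat.ceil_lt_add_one ht0).le
      have h2 : (⌈t⌉₊ : ℝ) * x ≤ (t + 1) * x := mul_le_mul_of_nonneg_right h1 hx0.le
      have h3 : (t + 1) * x = t * x + x := by ring
      rw [h3, htx] at h2
      linarith
  have hkR : 4 * R ^ 2 ≤ Y ^ k := by
    have h1 : Real.log (4 * R ^ 2) ≤ Real.log (Y ^ k) := by
      rw [Real.log_mul (by norm_num) (by positivity), Real.log_pow, Real.log_pow, ← hx]
      push_cast
      rw [← htx]
      exact mul_le_mul_of_nonneg_right hkt hx0.le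
    exact (Real.log_le_log_iff (by positivity) (by positivity)).1 h1
  -- the bound for the number of the factorisations
  obtain ⟨H, hH⟩ : ∃ H, H = C4 * x / Real.log x := ⟨_, rfl⟩
  have hkpos : 0 < (k : ℝ) := by
    have : 0 < k := by omega
    exact_mod_cast this
  have hlk0 : 0 ≤ Real.log k := Real.log_nonneg (by exact_mod_cast (by omega : 1 ≤ k))
  have hHk : H * Real.log k ≤ x / 50 := by
    have h1 : Real.log k ≤ 2 * b * Real.log x := by
      have h2 : Real.log k ≤ Real.log (x ^ (2 * b)) := Real.log_le_log hkpos (hkb.trans n1)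
      rw [Real.log_rpow hx0] at h2
      exact h2
    have h2 : 0 ≤ H := by rw [hH]; positivity
    calc H * Real.log k ≤ H * (2 * b * Real.log x) := mul_le_mul_of_nonneg_left h1 h2
      _ = (2 * b * C4) * x := by
          rw [hH]
          have : Real.log x ≠ 0 := by positivity
          field_simp
      _ ≤ 1 / 50 * x := mul_le_mul_of_nonneg_right hbC hx0.le
      _ = x / 50 := by ring
  have hD : ∀ y ∈ Fintype.piFinset (fun _ : Fin k => A),
      (((Fintype.piFinset (fun _ : Fin k => A)).filter (fun z => ∏ i, z i = ∏ i, y i)).card : ℝ) ≤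
        U ^ k * Real.exp (k * x / 50) := by
    intro y hy
    rw [Fintype.mem_piFinset] at hy
    refine (hfac k A (∏ i, y i) (by omega) (fun α hα => (hA α hα).1)).trans ?_
    refine mul_le_mul_of_nonneg_left ?_ (by positivity)
    have h1 : (Om (∏ i, y i) : ℝ) ≤ k * H := by
      rw [om_prod k y (fun i => (hA _ (hy i)).1.ne)]
      push_cast
      calc ∑ i, (Om (y i) : ℝ) ≤ ∑ _i : Fin k, H := by
            refine Finset.sum_le_sum fun i _ => ?_
            have := homg Y (y i) hY16 (hA _ (hy i)).1 (hA _ (hy i)).2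
            rw [← hx] at this
            rw [hH]
            exact this
        _ = k * H := by
            rw [Finset.sum_const, Finset.card_univ, Fintype.card_fin, nsmul_eq_mul]
    rw [← Real.rpow_natCast, Real.rpow_def_of_pos hkpos]
    apply Real.exp_le_exp.2
    calc Real.log k * (Om (∏ i, y i) : ℝ) ≤ Real.log k * (k * H) := mul_le_mul_of_nonneg_left h1 hlk0
      _ = k * (H * Real.log k) := by ring
      _ ≤ k * (x / 50) := mul_le_mul_of_nonneg_left hHk hkpos.le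
      _ = k * x / 50 := by ring
  have hcore := mom_core hψ hC (fun W R' P' A' c => hlsf B P0 ψ hψ W R' P' A' c) (by linarith : 1 ≤ Y)
    hR1 k (by omega) hkR A (fun α hα => (hA α hα).2) P hP hD
  -- conclusion
  have hApos : 0 < (A.card : ℝ) := by
    rcases Nat.eq_zero_or_pos A.card with h | h
    · rw [h] at hAc
      have : 0 < Y ^ Module.finrank ℚ L := by positivity
      norm_num at hAc
      linarith
    · exact_mod_cast h
  have hAk : 0 < (A.card : ℝ) ^ k := by positivity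
  have h6 : (Y ^ k) ^ Module.finrank ℚ L ≤ (A.card : ℝ) ^ k * (x ^ m) ^ k := by
    rw [← pow_mul, mul_comm k, pow_mul, ← mul_pow]
    exact pow_le_pow_left₀ (by positivity) hAc k
  have h7 : (P.card : ℝ) * ((A.card : ℝ) ^ k * (A.card : ℝ) ^ k) ≤
      ((2 * C) ^ Module.finrank ℚ L * ((16 * U * x ^ m) ^ k * Real.exp (k * x / 50))) *
        ((A.card : ℝ) ^ k * (A.card : ℝ) ^ k) := by
    have e1 : (P.card : ℝ) * ((A.card : ℝ) ^ k * (A.card : ℝ) ^ k) =
        16 ^ k * ((P.card : ℝ) * (((A.card : ℝ) / 4) ^ k) ^ 2) := by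
      rw [div_pow]
      have : (16 : ℝ) ^ k = (4 ^ k) ^ 2 := by
        rw [← pow_mul, mul_comm, pow_mul]
        norm_num
      rw [this]
      field_simp
    rw [e1]
    calc 16 ^ k * ((P.card : ℝ) * (((A.card : ℝ) / 4) ^ k) ^ 2) ≤
        16 ^ k * ((2 * C * Y ^ k) ^ Module.finrank ℚ L *
          (U ^ k * Real.exp (k * x / 50) * (A.card : ℝ) ^ k)) :=
          mul_le_mul_of_nonneg_left hcore (by positivity)
      _ = 16 ^ k * ((2 * C) ^ Module.finrank ℚ L * (U ^ k * Real.exp (k * x / 50) *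
            (A.card : ℝ) ^ k)) * (Y ^ k) ^ Module.finrank ℚ L := by
          rw [mul_pow (2 * C)]
          ring
      _ ≤ 16 ^ k * ((2 * C) ^ Module.finrank ℚ L * (U ^ k * Real.exp (k * x / 50) *
            (A.card : ℝ) ^ k)) * ((A.card : ℝ) ^ k * (x ^ m) ^ k) :=
          mul_le_mul_of_nonneg_left h6 (by positivity)
      _ = _ := by
          rw [mul_pow, mul_pow]
          ring
  have h8 := le_of_mul_le_mul_right h7 (by positivity)
  have h9 : (16 * U * x ^ m) ^ k ≤ Real.exp (k * x / 50) := by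
    calc (16 * U * x ^ m) ^ k ≤ Real.exp (x / 50) ^ k := pow_le_pow_left₀ (by positivity) n2 k
      _ = Real.exp (k * x / 50) := by
          rw [← Real.exp_nat_mul]
          congr 1
          ring
  have h10 : (P.card : ℝ) ≤ (2 * C) ^ Module.finrank ℚ L * Real.exp (k * x / 25) := by
    refine h8.trans ?_
    refine mul_le_mul_of_nonneg_left ?_ (by positivity)
    calc (16 * U * x ^ m) ^ k * Real.exp (k * x / 50) ≤
        Real.exp (k * x / 50) * Real.exp (k * x / 50) :=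
          mul_le_mul_of_nonneg_right h9 (Real.exp_pos _).le
      _ = Real.exp (k * x / 25) := by
          rw [← Real.exp_add]
          congr 1
          ring
  have h11 : Real.exp (k * x / 25) ≤ 2 * Real.exp (4 / 25 * Real.log R) := by
    have e1 : k * x / 25 ≤ Real.log 2 + 4 / 25 * Real.log R := by
      have : 0 ≤ Real.log 2 := Real.log_nonneg (by norm_num)
      linarith
    calc Real.exp (k * x / 25) ≤ Real.exp (Real.log 2 + 4 / 25 * Real.log R) :=
          Real.exp_le_exp.2 e1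
      _ = 2 * Real.exp (4 / 25 * Real.log R) := by
          rw [Real.exp_add, Real.exp_log (by norm_num)]
  calc (P.card : ℝ) ≤ (2 * C) ^ Module.finrank ℚ L * (2 * Real.exp (4 / 25 * Real.log R)) :=
        h10.trans (mul_le_mul_of_nonneg_left h11 (by positivity))
    _ = ((2 * C) ^ Module.finrank ℚ L * 2) * Real.exp (4 / 25 * Real.log R) := by ring
    _ ≤ Real.exp (37 / 100 * x) * Real.exp (4 / 25 * Real.log R) :=
        mul_le_mul_of_nonneg_right n3 (Real.exp_pos _).le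
    _ = Real.exp (37 / 100 * x + 4 / 25 * Real.log R) := by rw [Real.exp_add]
    _ ≤ Real.exp (Real.log R * (9 / 10)) := by
        apply Real.exp_le_exp.2
        linarith
    _ = R ^ (9 / 10 : ℝ) := by rw [Real.rpow_def_of_pos hRpos]

end Pool.Agent.Q237.ESM
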