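import Pool.Agent.Q237.ESM.Typ
import Pool.Agent.Q239.EL.DESC
import Pool.Agent.Q151.OS.DESC2

/-!
# Project ESM (helper161), jobs QA and QM: the classes of `α_j` and `m_j`
-/

set_option autoImplicit false

namespace Pool.Agent.Q237.ESM

open Polynomial NumberField IsDedekindDomain Finset
open Pool.Agent.Q51.EL (Abv Par Setup)
open Pool.Agent.Q161.ESM
open Pool.Agent.Q161.OS (Gd)

section fld

variable {J : Type} {K : Type} [Field K] [NumberField K] {L : J → Type} [∀ j, Field (L j)]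
  [∀ j, NumberField (L j)] {f : J → ℤ[X]} {tt : (j : J) → 𝓞 (L j)}
  {io : (j : J) → Fin 3 → (L j →+* K)} {V : Type} [AddCommGroup V]
  [DistribMulAction (K ≃ₐ[ℚ] K) V] {pm : (K ≃ₐ[ℚ] K) → J → Fin 3 → Fin 3}
  {cd : V →+ (J → Fin 3 → ZMod 2)}

theorem Tm_smul (hF : Fld f tt io) (hV : VS io pm cd) (g : K ≃ₐ[ℚ] K) (t : V) (j : J)
    (k : Fin 3) : Tm cd (g • t) j (pm g j k) ↔ Tm cd t j k := by
  unfold Tm
  rw [hV.eqv]
  refine and_congr_right fun _ => ⟨fun h k' hk' => ?_, fun h k' hk' => ?_⟩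
  · rw [← hV.eqv g t j k']
    exact h _ fun h1 => hk' (pm_inj hF hV g j h1)
  · obtain ⟨k'', rfl⟩ := (Finite.injective_iff_surjective.1 (pm_inj hF hV g j)) k'
    rw [hV.eqv]
    exact h _ fun h1 => hk' (by rw [h1])

theorem Tz_smul (hF : Fld f tt io) (hV : VS io pm cd) (g : K ≃ₐ[ℚ] K) (t : V) (j : J) :
    Tz cd (g • t) j ↔ Tz cd t j := by
  unfold Tz
  constructor
  · intro h k
    rw [← hV.eqv g t j k]
    exact h _
  · intro h k
    obtain ⟨k', rfl⟩ := (Finite.injective_iff_surjective.1 (pm_inj hF hV g j)) k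
    rw [hV.eqv]
    exact h _

open Classical in
/-- the valuations of the products of the `z t` -/
theorem val_prod [Fintype V] {B : ℕ} {κ : J → ℤ} {D : ℤ} {α : (j : J) → 𝓞 (L j)} {m : J → ℤ}
    {z : V → 𝓞 K} (hR : Rel0 tt io cd B κ D α m z) {l : ℕ} (hl : l.Prime) (hlB : ¬ l ∣ B)
    {w : HeightOneSpectrum (𝓞 K)} (hw : Abv w l) (hlD : (l : ℤ) ∣ D) {t0 : V}
    (h0 : Tp io cd α m l w t0) (hu : ∀ t, Tp io cd α m l w t → t = t0) (P : V → Prop) :
    w.valuation K (∏ t ∈ univ.filter P, (z t : K)) = if P t0 then WithZero.exp (-1 : ℤ) else 1 := by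
  rw [map_prod]
  have h1 : ∀ t ∈ univ.filter P, w.valuation K (z t : K) =
      if t0 = t then WithZero.exp (-1 : ℤ) else 1 := by
    intro t _
    split_ifs with h
    · rw [← h]
      exact (hR.typ l hl hlB w hw t0).1 ⟨hlD, h0⟩
    · exact (hR.typ l hl hlB w hw t).2 fun h2 => h (hu t h2.2).symm
  rw [prod_congr rfl h1, prod_ite_eq]
  simp only [mem_filter, mem_univ, true_and]

open Classical in
theorem val_prod_one [Fintype V] {B : ℕ} {κ : J → ℤ} {D : ℤ} {α : (j : J) → 𝓞 (L j)} {m : J → ℤ}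
    {z : V → 𝓞 K} (hR : Rel0 tt io cd B κ D α m z) {l : ℕ} (hl : l.Prime) (hlB : ¬ l ∣ B)
    {w : HeightOneSpectrum (𝓞 K)} (hw : Abv w l) (hlD : ¬ (l : ℤ) ∣ D) (P : V → Prop) :
    w.valuation K (∏ t ∈ univ.filter P, (z t : K)) = 1 := by
  rw [map_prod]
  exact prod_eq_one fun t _ => (hR.typ l hl hlB w hw t).2 fun h2 => hlD h2.1

open Classical in
theorem prod_Tm [Fintype V] (hF : Fld f tt io) (hV : VS io pm cd) {z : V → 𝓞 K} (hz : Eqv z)
    (g : K ≃ₐ[ℚ] K) (j : J) (k : Fin 3) :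
    g (∏ t ∈ univ.filter (fun t => Tm cd t j k), (z t : K)) =
      ∏ t ∈ univ.filter (fun t => Tm cd t j (pm g j k)), (z t : K) := by
  rw [map_prod]
  refine prod_bij (fun t _ => g • t) ?_ ?_ ?_ ?_
  · intro t ht
    rw [mem_filter] at ht ⊢
    exact ⟨mem_univ _, (Tm_smul hF hV g t j k).2 ht.2⟩
  · intro a _ b _ h
    exact MulAction.injective g h
  · intro s hs
    rw [mem_filter] at hs
    refine ⟨g⁻¹ • s, ?_, smul_inv_smul g s⟩
    rw [mem_filter]
    refine ⟨mem_univ _, ?_⟩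
    have h1 := hs.2
    rw [← smul_inv_smul g s] at h1
    exact (Tm_smul hF hV g _ j k).1 h1
  · intro t _
    exact (hz g t).symm

open Classical in
theorem prod_Tz [Fintype V] (hF : Fld f tt io) (hV : VS io pm cd) {z : V → 𝓞 K} (hz : Eqv z)
    (g : K ≃ₐ[ℚ] K) (j : J) :
    g (∏ t ∈ univ.filter (fun t => Tz cd t j), (z t : K)) =
      ∏ t ∈ univ.filter (fun t => Tz cd t j), (z t : K) := by
  rw [map_prod]
  refine prod_bij (fun t _ => g • t) ?_ ?_ ?_ ?_
  · intro t ht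
    rw [mem_filter] at ht ⊢
    exact ⟨mem_univ _, (Tz_smul hF hV g t j).2 ht.2⟩
  · intro a _ b _ h
    exact MulAction.injective g h
  · intro s hs
    rw [mem_filter] at hs
    refine ⟨g⁻¹ • s, ?_, smul_inv_smul g s⟩
    rw [mem_filter]
    refine ⟨mem_univ _, ?_⟩
    have h1 := hs.2
    rw [← smul_inv_smul g s] at h1
    exact (Tz_smul hF hV g _ j).1 h1
  · intro t _
    exact (hz g t).symm

theorem coe_ne' {F : Type} [Field F] [NumberField F] {x : 𝓞 F} (h : x ≠ 0) : (x : F) ≠ 0 := by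
  intro h1
  apply h
  exact FaithfulSMul.algebraMap_injective (𝓞 F) F (by rw [map_zero]; exact h1)

theorem qa : S_SUF → S_TYP → S_QA := by
  classical
  intro hSUF hTYP J _ f L _ _ K _ _ _ tt io hF V _ _ _ pm cd hV
  obtain ⟨B1, hB1, hB⟩ := exists_B (K := K) hF
  obtain ⟨B2, hB2, hT⟩ := hTYP J f L K tt io hF V pm cd hV
  refine ⟨B1 * B2, mul_ne_zero hB1 hB2, fun B hBB hB0 => ?_⟩
  choose Q hQ0 hQ using fun j => hSUF (L j) B hB0
  refine ⟨Q, fun κ D α m z hR j => ?_⟩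
  have hT' := hT B ((Dvd.intro_left _ rfl).trans hBB) κ D α m hR.sq hR.gd
  set Ak : Fin 3 → K := fun k => io j k (α j : L j) *
    (∏ t ∈ univ.filter (fun t => Tm cd t j k), (z t : K)) with hAk
  have hgA : ∀ (g : K ≃ₐ[ℚ] K) (k : Fin 3), g (Ak k) = Ak (pm g j k) := by
    intro g k
    rw [hAk]
    simp only
    rw [map_mul, hV.emb, prod_Tm hF hV hR.eqv]
  obtain ⟨A, hA⟩ := gal_range (io j 0) (Ak 0) (fun g hg => by
    rw [hgA, pm_of hF hV hg])
  have hAA : ∀ k, io j k A = Ak k := by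
    intro k
    obtain ⟨g, hg⟩ := exists_pm hF hV j 0 k
    have h1 := congrArg g hA
    rw [hV.emb, hgA, hg] at h1
    exact h1
  have hA0 : A ≠ 0 := by
    intro h
    rw [h, map_zero] at hA
    have h1 : Ak 0 ≠ 0 := by
      refine mul_ne_zero ?_ (prod_ne_zero_iff.2 fun t _ => coe_ne' (hR.ne t))
      rw [Ne, map_eq_zero]
      exact coe_ne' (hR.a0 j)
    exact h1 hA.symm
  obtain ⟨a, ha, q, hq, haq⟩ := hQ j A hA0 (by
    intro v hv
    obtain ⟨l, _, hl, hlv, -, -⟩ := Pool.Agent.Q239.EL.below v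
    have hlB : ¬ l ∣ B := by
      rintro ⟨c, hc⟩
      apply hv
      rw [hc, Nat.cast_mul]
      exact v.asIdeal.mul_mem_right _ hlv
    obtain ⟨hsq, -⟩ := hB l hl fun h => hlB (h.trans ((Dvd.intro _ rfl).trans hBB))
    haveI : Fact l.Prime := ⟨hl⟩
    obtain ⟨w, hw⟩ := Pool.Agent.Q239.EL.exists_above (L := K) hsq
    obtain ⟨k, hk⟩ := exists_bl hV w hl hw j v hlv
    have h1 : v.valuation (L j) A = w.valuation K (Ak k) := by
      rw [hk, ← val_bl (io j k) w hl hw hsq, hAA]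
    unfold Par
    rw [h1, hAk]
    simp only
    rw [map_mul]
    by_cases hlD : (l : ℤ) ∣ D
    · obtain ⟨t0, ht0, hu⟩ := (hT' l hl hlB w hw).1 hlD
      rw [val_prod hR hl hlB hw hlD ht0 hu]
      by_cases hTm : Tm cd t0 j k
      · rw [if_pos hTm]
        rcases ht0 j with ⟨-, h2, -⟩ | ⟨-, k1, h2, h3, -⟩
        · exact (not_Tz_Tm h2 hTm).elim
        · rw [Tm_unique hTm h2, h3, ← WithZero.exp_add]
          exact ⟨-1, by norm_num⟩
      · rw [if_neg hTm, mul_one]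
        rcases ht0 j with ⟨-, -, h2⟩ | ⟨-, k1, h2, -, h3⟩
        · rw [h2]
          exact ⟨0, by simp⟩
        · rw [h3 k (fun h => hTm (by rw [h]; exact h2))]
          exact ⟨0, by simp⟩
    · rw [(hT' l hl hlB w hw).2 hlD j k, val_prod_one hR hl hlB hw hlD, one_mul]
      exact ⟨0, by simp⟩)
  refine ⟨a, ha, q, hq, fun k => ?_⟩
  have h1 := hAA k
  rw [haq, map_mul, map_pow] at h1
  exact h1.symm

theorem exp_npow (a : ℤ) (n : ℕ) :
    (WithZero.exp a : WithZero (Multiplicative ℤ)) ^ n = WithZero.exp ((n : ℤ) * a) := by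
  rw [← WithZero.exp_nsmul, nsmul_eq_mul]

theorem val_intK {l : ℕ} (hl : l.Prime) (hsq : Squarefree (Ideal.span {(l : 𝓞 K)}))
    {w : HeightOneSpectrum (𝓞 K)} (hw : Abv w l) {N : ℤ} (hN : N ≠ 0) :
    w.valuation K (N : K) = WithZero.exp (-(padicValInt l N : ℤ)) := by
  haveI : Fact l.Prime := ⟨hl⟩
  have hfm : FiniteMultiplicity (l : ℤ) N := by
    rw [Int.finiteMultiplicity_iff]
    exact ⟨by simpa using hl.one_lt.ne', hN⟩
  obtain ⟨c, hc, hnd⟩ := hfm.exists_eq_pow_mul_and_not_dvd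
  have h1 : padicValInt l N = multiplicity (l : ℤ) N := padicValInt.of_ne_one_ne_zero hl.one_lt.ne' hN
  rw [h1]
  conv_lhs => rw [hc]
  rw [Int.cast_mul, Int.cast_pow, Int.cast_natCast, map_mul, map_pow, val_l hl hsq hw,
    Pool.Agent.Q239.EL.val_int_eq hw hnd, mul_one, exp_npow]
  congr 1
  ring

theorem qm : S_TYP → S_QM := by
  classical
  intro hTYP J _ f L _ _ K _ _ _ tt io hF V _ _ _ pm cd hV
  obtain ⟨B1, hB1, hB⟩ := exists_B (K := K) hF
  obtain ⟨B2, hB2, hT⟩ := hTYP J f L K tt io hF V pm cd hV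
  refine ⟨B1 * B2, mul_ne_zero hB1 hB2, fun B hBB hB0 κ D α m z hR j => ?_⟩
  have hT' := hT B ((Dvd.intro_left _ rfl).trans hBB) κ D α m hR.sq hR.gd
  set M : 𝓞 K := (m j : 𝓞 K) * (∏ t ∈ univ.filter (fun t => Tz cd t j), z t) with hM
  have hMK : (M : K) = (m j : K) * ∏ t ∈ univ.filter (fun t => Tz cd t j), (z t : K) := by
    rw [hM]
    show algebraMap (𝓞 K) K _ = _
    rw [map_mul, map_prod, map_intCast]
  have hm0 : m j ≠ 0 := by
    have := hR.m1 j
    omega
  have hM0 : (M : K) ≠ 0 := by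
    rw [hMK]
    refine mul_ne_zero (by exact_mod_cast hm0) (prod_ne_zero_iff.2 fun t _ => coe_ne' (hR.ne t))
  have hfix : ∀ g : K ≃ₐ[ℚ] K, g (M : K) = M := by
    intro g
    rw [hMK, map_mul, prod_Tz hF hV hR.eqv, map_intCast]
  obtain ⟨r, hr⟩ := (IsGalois.mem_range_algebraMap_iff_fixed (F := ℚ) (E := K) (M : K)).2 hfix
  have hint : IsIntegral ℤ r := by
    have h1 : IsIntegral ℤ (algebraMap ℚ K r) := by
      rw [hr]
      exact RingOfIntegers.isIntegral_coe M
    exact (isIntegral_algebraMap_iff (algebraMap ℚ K).injective).1 h1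
  obtain ⟨N, hN⟩ := IsIntegrallyClosed.isIntegral_iff.1 hint
  have hMN : (M : K) = (N : K) := by
    rw [← hr, ← hN]
    simp
  have hN0 : N ≠ 0 := by
    rintro rfl
    apply hM0
    rw [hMN, Int.cast_zero]
  obtain ⟨μ, s, hμs, hμ⟩ := Pool.Agent.Q151.OS.kap_dvd hN0 (B := B) (by
    intro l hl hlB
    obtain ⟨hsq, -⟩ := hB l hl fun h => hlB (h.trans ((Dvd.intro _ rfl).trans hBB))
    haveI : Fact l.Prime := ⟨hl⟩
    obtain ⟨w, hw⟩ := Pool.Agent.Q239.EL.exists_above (L := K) hsq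
    have h1 := val_intK hl hsq hw hN0
    rw [← hMN, hMK, map_mul] at h1
    by_cases hlD : (l : ℤ) ∣ D
    · obtain ⟨t0, ht0, hu⟩ := (hT' l hl hlB w hw).1 hlD
      rw [val_prod hR hl hlB hw hlD ht0 hu] at h1
      rcases ht0 j with ⟨h3, h2, -⟩ | ⟨h3, k1, h2, -, -⟩
      · rw [if_pos h2] at h1
        obtain ⟨c, hc⟩ := h3
        have hnc : ¬ (l : ℤ) ∣ c := by
          intro hd
          have h4 : (l : ℤ) * l ∣ D := by
            refine dvd_trans ?_ (hR.md j)
            rw [hc]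
            exact mul_dvd_mul_left _ hd
          have h5 := hR.sq _ h4
          rw [Int.isUnit_iff] at h5
          have h6 := hl.two_le
          omega
        rw [hc, Int.cast_mul, Int.cast_natCast, map_mul, val_l hl hsq hw,
          Pool.Agent.Q239.EL.val_int_eq hw hnc, mul_one, ← WithZero.exp_add,
          WithZero.exp_inj] at h1
        have h7 : padicValInt l N = 2 := by omega
        rw [h7]
        exact even_two
      · rw [if_neg (fun h => not_Tz_Tm h h2), mul_one, Pool.Agent.Q239.EL.val_int_eq hw h3,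
          ← WithZero.exp_zero, WithZero.exp_inj] at h1
        have h7 : padicValInt l N = 0 := by omega
        rw [h7]
        exact Even.zero
    · have h3 : ¬ (l : ℤ) ∣ m j := fun h => hlD (h.trans (hR.md j))
      rw [val_prod_one hR hl hlB hw hlD, mul_one, Pool.Agent.Q239.EL.val_int_eq hw h3,
          ← WithZero.exp_zero, WithZero.exp_inj] at h1
      have h7 : padicValInt l N = 0 := by omega
      rw [h7]
      exact Even.zero)
  refine ⟨μ, s, hμ, ?_, ?_⟩
  · rintro rfl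
    apply hN0
    rw [hμs]
    ring
  · rw [← hμs]
    apply FaithfulSMul.algebraMap_injective (𝓞 K) K
    show (M : K) = algebraMap (𝓞 K) K ((N : ℤ) : 𝓞 K)
    rw [hMN, map_intCast]

end fld

end Pool.Agent.Q237.ESM
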