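import Pool.Agent.Q161.ESM.Stm2
import Pool.Agent.Q63.EA.Exc

/-!
# Project ESM (helper161), job EXC2: the exceptional values
-/

set_option autoImplicit false

namespace Pool.Agent.Q237.ESM

open NumberField IsDedekindDomain Finset
open Pool.Agent.Q161.EA Pool.Agent.Q51.EL Pool.Agent.Q161.ESM
open Pool.Agent.Q63.EA (dyad few mem_pr)

open Classical in
/-- the primes used in an interval -/
noncomputable def Gp (P0 : Set ℕ) (B : ℕ) (p q : ℝ) : Finset ℕ :=
  (pr q).filter (fun l : ℕ => p < (l : ℝ) ∧ ¬ l ∣ B ∧ l ∈ P0)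

variable {L : Type} [Field L] [NumberField L]

theorem mem_Gp {P0 : Set ℕ} {B : ℕ} {p q : ℝ} (hq : 0 ≤ q) {l : ℕ} :
    l ∈ Gp P0 B p q ↔ l.Prime ∧ (l : ℝ) ≤ q ∧ p < (l : ℝ) ∧ ¬ l ∣ B ∧ l ∈ P0 := by
  classical
  unfold Gp
  rw [mem_filter, mem_pr hq]
  tauto

open Classical in
theorem low (P0 : Set ℕ) (B : ℕ) (hB : B ≠ 0) (c p q C0 : ℝ) (hp : 0 < p) (hpq : p ≤ q)
    (hBp : (B : ℝ) ≤ p)
    (h1 : |∑ l ∈ (pr p).filter (fun l => l ∈ P0), (1 : ℝ) / l - c * Real.log (Real.log p)| ≤ C0)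
    (h2 : |∑ l ∈ (pr q).filter (fun l => l ∈ P0), (1 : ℝ) / l - c * Real.log (Real.log q)| ≤ C0) :
    c * (Real.log (Real.log q) - Real.log (Real.log p)) - 2 * C0 ≤
      ∑ l ∈ Gp P0 B p q, (1 : ℝ) / l := by
  have hq : 0 < q := by linarith
  have hsub : (pr p).filter (fun l => l ∈ P0) ⊆ (pr q).filter (fun l => l ∈ P0) := by
    intro l hl
    rw [mem_filter, mem_pr hp.le] at hl
    rw [mem_filter, mem_pr hq.le]
    exact ⟨⟨hl.1.1, hl.1.2.trans hpq⟩, hl.2⟩
  have h3 : ∑ l ∈ (pr q).filter (fun l => l ∈ P0) \ (pr p).filter (fun l => l ∈ P0), (1 : ℝ) / l +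
      ∑ l ∈ (pr p).filter (fun l => l ∈ P0), (1 : ℝ) / l =
      ∑ l ∈ (pr q).filter (fun l => l ∈ P0), (1 : ℝ) / l := Finset.sum_sdiff hsub
  have h4 : Gp P0 B p q = (pr q).filter (fun l => l ∈ P0) \ (pr p).filter (fun l => l ∈ P0) := by
    ext l
    rw [mem_Gp hq.le, mem_sdiff, mem_filter, mem_filter, mem_pr hq.le, mem_pr hp.le]
    constructor
    · rintro ⟨a1, a2, a3, a4, a5⟩
      exact ⟨⟨⟨a1, a2⟩, a5⟩, fun h => by linarith [h.1.2]⟩
    · rintro ⟨⟨⟨a1, a2⟩, a3⟩, a4⟩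
      have h5 : p < (l : ℝ) := by
        by_contra h
        exact a4 ⟨⟨a1, not_lt.1 h⟩, a3⟩
      refine ⟨a1, a2, h5, ?_, a3⟩
      intro h
      have h7 := Nat.le_of_dvd (Nat.pos_of_ne_zero hB) h
      have h8 : (l : ℝ) ≤ B := by exact_mod_cast h7
      linarith
  rw [h4]
  rw [abs_le] at h1 h2
  have h5 := h1.1
  have h6 := h1.2
  have h7 := h2.1
  have h8 := h2.2
  rw [mul_sub]
  linarith

/-- the sum over the primes of an interval with `ψ = - ε` -/
noncomputable def mi (G : Finset ℕ) (ψ : ℕ → 𝓞 L → ℝ) (ε : ℕ → ℝ) (α : 𝓞 L) : ℝ :=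
  open Classical in ∑ l ∈ G.filter (fun l : ℕ => ψ l α = - ε l), (1 : ℝ) / l

theorem pointwise (P0 : Set ℕ) (B : ℕ) (ψ : ℕ → 𝓞 L → ℝ) (hchr : ChP L B P0 ψ) (Y p q : ℝ) (hY : 16 ≤ Y)
    (hp : Real.sqrt Y ≤ p) (hpq : p ≤ q) (hn : 4 * Module.finrank ℚ L / Real.sqrt Y ≤ 1 / 8)
    (ε : ℕ → ℝ) (hε : ∀ l, ε l = 1 ∨ ε l = -1) (α : 𝓞 L) (hα : α ≠ 0)
    (hY2 : ∀ σ : L →+* ℂ, ‖σ (α : L)‖ ≤ Y) :
    ∑ l ∈ Gp P0 B p q, (1 : ℝ) / l - 2 * mi (Gp P0 B p q) ψ ε α - 1 / 8 ≤
      ∑ l ∈ Gp P0 B p q, ε l * ψ l α / l := by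
  classical
  have hz : 4 ≤ Real.sqrt Y := by
    have : (4 : ℝ) = Real.sqrt 16 := by
      rw [show (16 : ℝ) = 4 ^ 2 by norm_num, Real.sqrt_sq (by norm_num)]
    rw [this]
    exact Real.sqrt_le_sqrt hY
  have hz0 : 0 < Real.sqrt Y := by linarith
  have hq0 : 0 ≤ q := by linarith
  have hfew : (((Gp P0 B p q).filter (fun l : ℕ => ¬ Un l α)).card) ≤ 2 * Module.finrank ℚ L := by
    apply few α hα (Real.sqrt Y) (by linarith)
    · intro σ
      rw [Real.sq_sqrt (by linarith)]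
      exact hY2 σ
    · intro l hl
      rw [mem_filter, mem_Gp hq0] at hl
      exact ⟨hl.1.1, by linarith [hl.1.2.2.1], hl.2⟩
  have hsm : ∑ l ∈ (Gp P0 B p q).filter (fun l : ℕ => ¬ Un l α), (1 : ℝ) / l ≤ 1 / 16 := by
    calc ∑ l ∈ (Gp P0 B p q).filter (fun l : ℕ => ¬ Un l α), (1 : ℝ) / l ≤
          ∑ _l ∈ (Gp P0 B p q).filter (fun l : ℕ => ¬ Un l α), 1 / Real.sqrt Y := by
          apply sum_le_sum
          intro l hl
          rw [mem_filter, mem_Gp hq0] at hl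
          exact div_le_div_of_nonneg_left (by norm_num) hz0 (by linarith [hl.1.2.2.1])
      _ = ((((Gp P0 B p q).filter (fun l : ℕ => ¬ Un l α)).card : ℕ) : ℝ) * (1 / Real.sqrt Y) := by
          rw [sum_const, nsmul_eq_mul]
      _ ≤ (2 * Module.finrank ℚ L : ℝ) * (1 / Real.sqrt Y) := by
          apply mul_le_mul_of_nonneg_right _ (by positivity)
          exact_mod_cast hfew
      _ = (4 * Module.finrank ℚ L / Real.sqrt Y) / 2 := by ring
      _ ≤ 1 / 16 := by linarith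
  have hterm : ∀ l ∈ Gp P0 B p q, (1 : ℝ) / l - 2 * (if ψ l α = - ε l then (1 : ℝ) / l else 0) -
      2 * (if ¬ Un l α then (1 : ℝ) / l else 0) ≤ ε l * ψ l α / l := by
    intro l hl
    rw [mem_Gp hq0] at hl
    have hl0 : (0 : ℝ) < l := by
      have := hl.1.pos
      exact_mod_cast this
    have hl1 : 0 < (1 : ℝ) / l := by positivity
    have hab := hchr.abs l α
    rw [abs_le] at hab
    have e1 : ε l * ψ l α / l = (ε l * ψ l α) * (1 / l) := by ring
    rw [e1]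
    by_cases hU : Un l α
    · rw [if_neg (not_not.2 hU)]
      by_cases h : ψ l α = - ε l
      · rw [if_pos h, h]
        have : ε l * -ε l = -1 := by
          rcases hε l with h1 | h1 <;> rw [h1] <;> norm_num
        rw [this]
        linarith
      · rw [if_neg h]
        have h2 := hchr.unit l α hl.1 hl.2.2.2.1 hl.2.2.2.2 hU
        have : ε l * ψ l α = 1 := by
          rcases hε l with h1 | h1 <;> rcases h2 with h3 | h3
          · rw [h1, h3]; norm_num
          · exact absurd (by rw [h3, h1]) h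
          · exact absurd (by rw [h3, h1]; norm_num) h
          · rw [h1, h3]; norm_num
        rw [this]
        linarith
    · rw [if_pos hU]
      have h3 : -1 ≤ ε l * ψ l α := by
        rcases hε l with h1 | h1 <;> rw [h1] <;> linarith [hab.1, hab.2]
      have h4 : (0 : ℝ) ≤ (if ψ l α = - ε l then (1 : ℝ) / l else 0) := by
        split_ifs
        · exact hl1.le
        · exact le_rfl
      have h5 : -1 * (1 / (l : ℝ)) ≤ (ε l * ψ l α) * (1 / l) := mul_le_mul_of_nonneg_right h3 hl1.le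
      linarith
  have h7 := sum_le_sum hterm
  rw [sum_sub_distrib, sum_sub_distrib, ← mul_sum, ← mul_sum, ← sum_filter, ← sum_filter] at h7
  unfold mi
  linarith

theorem excs (P0 : Set ℕ) (B : ℕ) (ψ : ℕ → 𝓞 L → ℝ) (K : ℝ) (hchr : ChP L B P0 ψ) (a b1 Y p q : ℝ) (hY : 16 ≤ Y)
    (hmom : ∀ (R : ℝ) (A : Finset (𝓞 L)) (P : Finset ℕ),
      Real.sqrt Y ≤ R → Real.log R ≤ Real.log Y ^ (1 + b1) →
      (∀ α ∈ A, Nice K α ∧ ∀ σ : L →+* ℂ, ‖σ (α : L)‖ ≤ Y) →
      Y ^ Module.finrank ℚ L ≤ A.card * Real.log Y ^ a →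
      (∀ l ∈ P, l.Prime ∧ ¬ l ∣ B ∧ l ∈ P0 ∧ (l : ℝ) ≤ 2 * R ∧
        (A.card : ℝ) / 4 < |∑ α ∈ A, ψ l α|) →
      (P.card : ℝ) ≤ R ^ (9 / 10 : ℝ))
    (hp : Real.sqrt Y ≤ p) (hpq : p ≤ q) (hq : Real.log q ≤ Real.log Y ^ (1 + b1))
    (hS : 1 ≤ ∑ l ∈ Gp P0 B p q, (1 : ℝ) / l)
    (hz1 : 16 * (Real.sqrt Y) ^ (-(1 / 10 : ℝ)) ≤ 1 / 8)
    (hn : 4 * Module.finrank ℚ L / Real.sqrt Y ≤ 1 / 8)
    (ε : ℕ → ℝ) (hε : ∀ l, ε l = 1 ∨ ε l = -1) (E : Finset (𝓞 L))
    (hE : ∀ α ∈ E, Nice K α ∧ ∀ σ : L →+* ℂ, ‖σ (α : L)‖ ≤ Y)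
    (hE2 : ∀ α ∈ E, mi (Gp P0 B p q) ψ ε α < (∑ l ∈ Gp P0 B p q, (1 : ℝ) / l) / 8) :
    (E.card : ℝ) * Real.log Y ^ a ≤ Y ^ Module.finrank ℚ L := by
  classical
  by_contra hcon
  rw [not_le] at hcon
  have hz : 4 ≤ Real.sqrt Y := by
    have : (4 : ℝ) = Real.sqrt 16 := by
      rw [show (16 : ℝ) = 4 ^ 2 by norm_num, Real.sqrt_sq (by norm_num)]
    rw [this]
    exact Real.sqrt_le_sqrt hY
  have hz0 : 0 < Real.sqrt Y := by linarith
  have hq0 : 0 ≤ q := by linarith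
  have hq00 : 0 < q := by linarith
  have hp1 : 1 ≤ p := by linarith
  have hY0 : 0 < Y := by linarith
  have hE0 : 0 < (E.card : ℝ) := by
    by_contra h
    rw [not_lt] at h
    have h1 : (E.card : ℝ) = 0 := le_antisymm h (Nat.cast_nonneg _)
    rw [h1, zero_mul] at hcon
    have : 0 < Y ^ Module.finrank ℚ L := by positivity
    linarith
  obtain ⟨S, hSd⟩ : ∃ S : ℝ, S = ∑ l ∈ Gp P0 B p q, (1 : ℝ) / l := ⟨_, rfl⟩
  rw [← hSd] at hS hE2
  obtain ⟨Bad, hBad⟩ : ∃ Bad : Finset ℕ, Bad = (Gp P0 B p q).filter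
    (fun l : ℕ => (E.card : ℝ) / 4 < |∑ α ∈ E, ψ l α|) := ⟨_, rfl⟩
  have hbad : ∑ l ∈ Bad, (1 : ℝ) / l ≤ 1 / 8 := by
    obtain ⟨N, hN⟩ := pow_unbounded_of_one_lt (q / p) (one_lt_two (α := ℝ))
    have hN2 : q ≤ 2 ^ N * p := by
      rw [div_lt_iff₀ (by linarith)] at hN
      exact hN.le
    have h1 := dyad N p Bad hp1 (by
      intro l hl
      rw [hBad, mem_filter, mem_Gp hq0] at hl
      exact ⟨hl.1.2.2.1, hl.1.2.1.trans hN2⟩) (by
      rintro R hR ⟨l, hl, hlR⟩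
      rw [hBad, mem_filter, mem_Gp hq0] at hl
      have hR0 : 0 < R := by linarith
      apply hmom R E _ (hp.trans hR) _ hE hcon.le
      · intro l' hl'
        rw [mem_filter, hBad, mem_filter, mem_Gp hq0] at hl'
        exact ⟨hl'.1.1.1, hl'.1.1.2.2.2.1, hl'.1.1.2.2.2.2, hl'.2.2, hl'.1.2⟩
      · exact (Real.log_le_log hR0 (by linarith [hl.1.2.1])).trans hq)
    refine h1.trans (le_trans ?_ hz1)
    apply mul_le_mul_of_nonneg_left _ (by norm_num)
    exact Real.rpow_le_rpow_of_nonpos hz0 hp (by norm_num)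
  -- upper bound
  have hup : ∑ l ∈ Gp P0 B p q, |∑ α ∈ E, ψ l α| / l ≤ (E.card : ℝ) / 4 * S + E.card * (1 / 8) := by
    have hterm : ∀ l ∈ Gp P0 B p q, |∑ α ∈ E, ψ l α| / l ≤ (E.card : ℝ) / 4 * (1 / l) +
        (E.card : ℝ) * (if (E.card : ℝ) / 4 < |∑ α ∈ E, ψ l α| then (1 : ℝ) / l else 0) := by
      intro l hl
      rw [mem_Gp hq0] at hl
      have hl0 : (0 : ℝ) < l := by
        have := hl.1.pos
        exact_mod_cast this
      have hl1 : 0 < (1 : ℝ) / l := by positivity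
      by_cases h : (E.card : ℝ) / 4 < |∑ α ∈ E, ψ l α|
      · rw [if_pos h]
        have h2 : |∑ α ∈ E, ψ l α| ≤ E.card := by
          calc |∑ α ∈ E, ψ l α| ≤ ∑ α ∈ E, |ψ l α| := Finset.abs_sum_le_sum_abs _ _
            _ ≤ ∑ _α ∈ E, (1 : ℝ) := sum_le_sum (fun α _ => hchr.abs l α)
            _ = E.card := by simp
        have h3 : |∑ α ∈ E, ψ l α| / l ≤ (E.card : ℝ) * (1 / l) := by
          rw [mul_one_div]
          gcongr
        have h4 : 0 ≤ (E.card : ℝ) / 4 * (1 / l) := by positivity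
        linarith
      · rw [if_neg h, mul_zero, add_zero, mul_one_div]
        rw [not_lt] at h
        gcongr
    calc ∑ l ∈ Gp P0 B p q, |∑ α ∈ E, ψ l α| / l ≤ ∑ l ∈ Gp P0 B p q, ((E.card : ℝ) / 4 * (1 / l) +
        (E.card : ℝ) * (if (E.card : ℝ) / 4 < |∑ α ∈ E, ψ l α| then (1 : ℝ) / l else 0)) :=
          sum_le_sum hterm
      _ = (E.card : ℝ) / 4 * S + E.card * ∑ l ∈ Bad, (1 : ℝ) / l := by
          rw [sum_add_distrib, ← mul_sum, ← mul_sum, ← sum_filter, hSd, hBad]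
      _ ≤ _ := by
          have := mul_le_mul_of_nonneg_left hbad hE0.le
          linarith
  -- lower bound
  have hlow : (E.card : ℝ) * (3 / 4 * S - 1 / 8) ≤ ∑ l ∈ Gp P0 B p q, |∑ α ∈ E, ψ l α| / l := by
    have h1 : ∀ l ∈ Gp P0 B p q, ∑ α ∈ E, ε l * ψ l α / l ≤ |∑ α ∈ E, ψ l α| / l := by
      intro l hl
      have h2 : ∑ α ∈ E, ε l * ψ l α / l = ε l * (∑ α ∈ E, ψ l α) / l := by
        rw [mul_sum, sum_div]
      rw [h2]
      have h3 : ε l * (∑ α ∈ E, ψ l α) ≤ |∑ α ∈ E, ψ l α| := by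
        rcases hε l with h | h
        · rw [h, one_mul]
          exact le_abs_self _
        · rw [h, neg_one_mul]
          exact neg_le_abs _
      gcongr
    have h4 : ∀ α ∈ E, 3 / 4 * S - 1 / 8 ≤ ∑ l ∈ Gp P0 B p q, ε l * ψ l α / l := by
      intro α hα
      have h5 := pointwise P0 B ψ hchr Y p q hY hp hpq hn ε hε α (hE α hα).1.ne (hE α hα).2
      rw [← hSd] at h5
      have h6 := hE2 α hα
      linarith
    calc (E.card : ℝ) * (3 / 4 * S - 1 / 8) = ∑ _α ∈ E, (3 / 4 * S - 1 / 8) := by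
          rw [sum_const, nsmul_eq_mul]
      _ ≤ ∑ α ∈ E, ∑ l ∈ Gp P0 B p q, ε l * ψ l α / l := sum_le_sum h4
      _ = ∑ l ∈ Gp P0 B p q, ∑ α ∈ E, ε l * ψ l α / l := sum_comm
      _ ≤ _ := sum_le_sum h1
  have h8 : (E.card : ℝ) * (3 / 4 * S - 1 / 8) ≤ (E.card : ℝ) * (S / 4 + 1 / 8) := by
    linarith
  have h9 := le_of_mul_le_mul_left h8 hE0
  linarith

open Classical in
theorem exc2 : S_MOM2 → S_EXC2 := by
  intro hmom L _ _ B P0 ψ K C0 c A0 hB hc hC0 hchr
  classical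
  obtain ⟨b1, Y1, hb1, hY1, hm⟩ := hmom L B P0 ψ K (A0 + 1) hchr
  obtain ⟨n, hnd⟩ : ∃ n : ℝ, n = (Module.finrank ℚ L : ℝ) := ⟨_, rfl⟩
  have hn1 : 1 ≤ n := by
    rw [hnd]
    exact_mod_cast (Module.finrank_pos : 0 < Module.finrank ℚ L)
  obtain ⟨A, hA1, hA⟩ : ∃ A : ℝ, 1 ≤ A ∧ 2 * C0 + 1 ≤ c * A := by
    refine ⟨max 1 ((2 * C0 + 1) / c), le_max_left _ _, ?_⟩
    rw [← div_le_iff₀' hc]
    exact le_max_right _ _
  have hA0 : 0 < A := by linarith
  obtain ⟨b, hbd⟩ : ∃ b : ℝ, b = min b1 (min 1 (1 / (8 * A))) := ⟨_, rfl⟩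
  have hb0 : 0 < b := by
    rw [hbd]
    exact lt_min hb1 (lt_min one_pos (by positivity))
  have hbb1 : b ≤ b1 := by
    rw [hbd]
    exact min_le_left _ _
  have hb1' : b ≤ 1 := by
    rw [hbd]
    exact (min_le_right _ _).trans (min_le_left _ _)
  have hbA : b ≤ 1 / (8 * A) := by
    rw [hbd]
    exact (min_le_right _ _).trans (min_le_right _ _)
  refine ⟨b, 1 / 8, max 16 (max Y1 (max ((B : ℝ) ^ 2) (max ((32 * n) ^ 2) ((128 ^ 10) ^ 2)))), hb0,
    le_max_left _ _, ?_⟩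
  intro Y ε AA hY hε hAA'
  have hAA : ∀ α ∈ AA, Nice K α ∧ ∀ σ : L →+* ℂ, ‖σ (α : L)‖ ≤ Y := fun α hα =>
    ⟨(hAA' α hα).1, (hAA' α hα).2.1⟩
  have hY16 : 16 ≤ Y := (le_max_left _ _).trans hY
  have hYY1 : Y1 ≤ Y := (le_max_left _ _).trans ((le_max_right _ _).trans hY)
  have hYB : (B : ℝ) ^ 2 ≤ Y :=
    (le_max_left _ _).trans ((le_max_right _ _).trans ((le_max_right _ _).trans hY))
  have hYn : (32 * n) ^ 2 ≤ Y :=
    (le_max_left _ _).trans ((le_max_right _ _).trans ((le_max_right _ _).trans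
      ((le_max_right _ _).trans hY)))
  have hY128 : ((128 : ℝ) ^ 10) ^ 2 ≤ Y :=
    (le_max_right _ _).trans ((le_max_right _ _).trans ((le_max_right _ _).trans
      ((le_max_right _ _).trans hY)))
  have hY0 : 0 < Y := by linarith
  obtain ⟨z, hzd⟩ : ∃ z : ℝ, z = Real.sqrt Y := ⟨_, rfl⟩
  have hzsq : ∀ x : ℝ, 0 ≤ x → x ^ 2 ≤ Y → x ≤ z := by
    intro x hx h
    rw [hzd]
    exact Real.le_sqrt_of_sq_le h
  have hz4 : 4 ≤ z := hzsq 4 (by norm_num) (by linarith)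
  have hz0 : 0 < z := by linarith
  have hzB : (B : ℝ) ≤ z := hzsq B (Nat.cast_nonneg _) hYB
  have hzn : 32 * n ≤ z := hzsq _ (by positivity) hYn
  have hz128 : (128 : ℝ) ^ 10 ≤ z := hzsq _ (by positivity) hY128
  have hlogz : Real.log Y = 2 * Real.log z := by
    have : Y = z ^ 2 := by
      rw [hzd, Real.sq_sqrt hY0.le]
    rw [this, Real.log_pow]
    push_cast
    ring
  have hlz0 : 0 < Real.log z := Real.log_pos (by linarith)
  have hlY2 : 2 < Real.log Y := by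
    have h1 : Real.log 16 ≤ Real.log Y := Real.log_le_log (by norm_num) hY16
    have h2 : Real.log 16 = 4 * Real.log 2 := by
      rw [show (16 : ℝ) = 2 ^ 4 by norm_num, Real.log_pow]
      norm_num
    have := Real.log_two_gt_d9
    linarith
  have hz1 : 16 * (Real.sqrt Y) ^ (-(1 / 10 : ℝ)) ≤ 1 / 8 := by
    rw [← hzd]
    have h1 : z ^ (-(1 / 10 : ℝ)) ≤ ((128 : ℝ) ^ 10) ^ (-(1 / 10 : ℝ)) :=
      Real.rpow_le_rpow_of_nonpos (by positivity) hz128 (by norm_num)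
    have h2 : ((128 : ℝ) ^ 10) ^ (-(1 / 10 : ℝ)) = 1 / 128 := by
      rw [← Real.rpow_natCast, ← Real.rpow_mul (by norm_num)]
      norm_num [Real.rpow_neg_one]
    rw [h2] at h1
    linarith
  have hnz : 4 * (Module.finrank ℚ L : ℝ) / Real.sqrt Y ≤ 1 / 8 := by
    rw [← hzd, ← hnd, div_le_iff₀ hz0]
    linarith
  -- the intervals
  obtain ⟨P, hP⟩ : ∃ P : ℕ → ℝ, ∀ s, P s = Real.exp (Real.exp (s * A) * Real.log z) :=
    ⟨fun s => Real.exp (Real.exp (s * A) * Real.log z), fun s => rfl⟩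
  have hlP : ∀ s, Real.log (P s) = Real.exp (s * A) * Real.log z := fun s => by
    rw [hP, Real.log_exp]
  have hP0 : P 0 = z := by
    rw [hP]
    simp only [Nat.cast_zero, zero_mul, Real.exp_zero, one_mul]
    exact Real.exp_log hz0
  have hmono : Monotone P := by
    intro s t hst
    rw [hP, hP]
    apply Real.exp_le_exp.2
    apply mul_le_mul_of_nonneg_right _ hlz0.le
    apply Real.exp_le_exp.2
    have : (s : ℝ) ≤ t := by exact_mod_cast hst
    exact mul_le_mul_of_nonneg_right this hA0.le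
  have hPz : ∀ s, z ≤ P s := fun s => by
    rw [← hP0]
    exact hmono (Nat.zero_le s)
  have hPpos : ∀ s, 0 < P s := fun s => hz0.trans_le (hPz s)
  have hllP : ∀ s, Real.log (Real.log (P s)) = s * A + Real.log (Real.log z) := fun s => by
    rw [hlP, Real.log_mul (Real.exp_pos _).ne' hlz0.ne', Real.log_exp]
  have hS : ∀ s, 1 ≤ ∑ l ∈ Gp P0 B (P s) (P (s + 1)), (1 : ℝ) / l := by
    intro s
    have h1 := low P0 B hB c (P s) (P (s + 1)) C0 (hPpos s) (hmono (Nat.le_succ s))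
      (hzB.trans (hPz s)) (hC0 _ (by linarith [hPz s])) (hC0 _ (by linarith [hPz (s + 1)]))
    rw [hllP, hllP] at h1
    push_cast at h1
    have h2 : c * (((s : ℝ) + 1) * A + Real.log (Real.log z) -
        (s * A + Real.log (Real.log z))) = c * A := by ring
    rw [h2] at h1
    linarith
  obtain ⟨Es, hEs⟩ : ∃ Es : ℕ → Finset (𝓞 L), ∀ s, Es s = AA.filter (fun α =>
      mi (Gp P0 B (P s) (P (s + 1))) ψ ε α < (∑ l ∈ Gp P0 B (P s) (P (s + 1)), (1 : ℝ) / l) / 8) :=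
    ⟨fun s => AA.filter (fun α =>
      mi (Gp P0 B (P s) (P (s + 1))) ψ ε α < (∑ l ∈ Gp P0 B (P s) (P (s + 1)), (1 : ℝ) / l) / 8),
      fun s => rfl⟩
  have hEcard : ∀ s, Real.log (P (s + 1)) ≤ Real.log Y ^ (1 + b1) →
      ((Es s).card : ℝ) * Real.log Y ^ (A0 + 1) ≤ Y ^ Module.finrank ℚ L := by
    intro s hs
    apply excs P0 B ψ K hchr (A0 + 1) b1 Y (P s) (P (s + 1)) hY16 _ _ (hmono (Nat.le_succ s)) hs (hS s) hz1 hnz
      ε hε (Es s)
    · intro α hα
      rw [hEs, mem_filter] at hα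
      exact hAA α hα.1
    · intro α hα
      rw [hEs, mem_filter] at hα
      exact hα.2
    · intro R A' P' hR1 hR2 hA' hc hP'
      exact hm Y R A' P' hYY1 hR1 hR2 hA' hc hP'
    · rw [← hzd]
      exact hPz s
  obtain ⟨Idx, hIdx⟩ : ∃ Idx : Finset ℕ, Idx = (range ⌊Real.log Y⌋₊).filter
    (fun s => Real.log (P (s + 1)) ≤ Real.log Y ^ (1 + b1)) := ⟨_, rfl⟩
  suffices hsuff : AA ⊆ Idx.biUnion Es by
    have h1 : (((Idx.biUnion Es).card : ℕ) : ℝ) ≤ ∑ s ∈ Idx, ((Es s).card : ℝ) := by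
      exact_mod_cast Finset.card_biUnion_le
    have h2 : ∑ s ∈ Idx, ((Es s).card : ℝ) * Real.log Y ^ (A0 + 1) ≤
        Real.log Y * Y ^ Module.finrank ℚ L := by
      calc ∑ s ∈ Idx, ((Es s).card : ℝ) * Real.log Y ^ (A0 + 1) ≤
            ∑ _s ∈ Idx, Y ^ Module.finrank ℚ L := by
            apply sum_le_sum
            intro s hs
            rw [hIdx, mem_filter] at hs
            exact hEcard s hs.2
        _ = (Idx.card : ℝ) * Y ^ Module.finrank ℚ L := by rw [sum_const, nsmul_eq_mul]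
        _ ≤ Real.log Y * Y ^ Module.finrank ℚ L := by
            apply mul_le_mul_of_nonneg_right _ (by positivity)
            have h3 : Idx.card ≤ ⌊Real.log Y⌋₊ := by
              rw [hIdx]
              exact (Finset.card_filter_le _ _).trans (by rw [card_range])
            calc (Idx.card : ℝ) ≤ (⌊Real.log Y⌋₊ : ℝ) := by exact_mod_cast h3
              _ ≤ Real.log Y := Nat.floor_le (by linarith)
    rw [← sum_mul] at h2
    have hpos : 0 ≤ Real.log Y ^ (A0 + 1) := Real.rpow_nonneg (by linarith) _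
    have h3 : (((Idx.biUnion Es).card : ℕ) : ℝ) * Real.log Y ^ (A0 + 1) ≤
        Real.log Y * Y ^ Module.finrank ℚ L :=
      (mul_le_mul_of_nonneg_right h1 hpos).trans h2
    have h4 : Real.log Y * ((((Idx.biUnion Es).card : ℕ) : ℝ) * Real.log Y ^ A0) ≤
        Real.log Y * Y ^ Module.finrank ℚ L := by
      refine le_trans (le_of_eq ?_) h3
      rw [Real.rpow_add (by linarith), Real.rpow_one]
      ring
    have h5 := le_of_mul_le_mul_left h4 (by linarith)
    refine le_trans (mul_le_mul_of_nonneg_right ?_ (Real.rpow_nonneg (by linarith) _)) h5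
    exact_mod_cast Finset.card_le_card hsuff
  · intro α hα
    by_contra hαE
    obtain ⟨Z, hZ1, hZ2, hZ3⟩ := (hAA' α hα).2.2
    refine absurd hZ3 (not_lt.2 ?_)
    rw [← hzd] at hZ1
    have hZ0 : 0 < Z := by linarith
    have hlZ : Real.log z ≤ Real.log Z := Real.log_le_log hz0 hZ1
    have hlZ0 : 0 < Real.log Z := by linarith
    obtain ⟨t, ht⟩ : ∃ t : ℝ, t = Real.log (Real.log Z / Real.log z) := ⟨_, rfl⟩
    have ht0 : 0 ≤ t := by
      rw [ht]
      apply Real.log_nonneg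
      rw [one_le_div hlz0]
      exact hlZ
    have htu : Real.log (Real.log Z / Real.log Y) ≤ t := by
      rw [ht]
      apply Real.log_le_log (by positivity)
      apply div_le_div_of_nonneg_left hlZ0.le hlz0
      linarith
    obtain ⟨k, hk⟩ : ∃ k : ℕ, k = ⌊t / A⌋₊ := ⟨_, rfl⟩
    have hkt : (k : ℝ) ≤ t / A := by
      rw [hk]
      exact Nat.floor_le (by positivity)
    have hkt2 : t / A - 1 ≤ k := by
      rw [hk]
      have := Nat.lt_floor_add_one (t / A)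
      linarith
    have hkA : (k : ℝ) * A ≤ t := by
      rwa [le_div_iff₀ hA0] at hkt
    have hPk : ∀ s < k, P (s + 1) ≤ Z := by
      intro s hs
      have h1 : ((s : ℝ) + 1) * A ≤ t := by
        refine le_trans ?_ hkA
        apply mul_le_mul_of_nonneg_right _ hA0.le
        exact_mod_cast hs
      have h2 : Real.exp (((s : ℝ) + 1) * A) ≤ Real.log Z / Real.log z := by
        rw [← Real.exp_log (show 0 < Real.log Z / Real.log z by positivity), ← ht]
        exact Real.exp_le_exp.2 h1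
      rw [le_div_iff₀ hlz0] at h2
      rw [hP, ← Real.exp_log hZ0]
      apply Real.exp_le_exp.2
      push_cast
      exact h2
    have hZb1 : Real.log Z ≤ Real.log Y ^ (1 + b1) :=
      hZ2.trans (Real.rpow_le_rpow_of_exponent_le (by linarith) (by linarith))
    have hklt : ∀ s < k, s < ⌊Real.log Y⌋₊ := by
      intro s hs
      refine lt_of_lt_of_le hs (Nat.le_floor ?_)
      have h1 : (k : ℝ) ≤ t := by
        have : (k : ℝ) * 1 ≤ k * A := mul_le_mul_of_nonneg_left hA1 (Nat.cast_nonneg _)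
        linarith
      refine h1.trans ?_
      rw [ht]
      have h2 : Real.log Z / Real.log z ≤ 2 * Real.log Y := by
        rw [div_le_iff₀ hlz0]
        have h3 : Real.log Z ≤ Real.log Y ^ (2 : ℝ) :=
          hZ2.trans (Real.rpow_le_rpow_of_exponent_le (by linarith) (by linarith))
        rw [Real.rpow_two] at h3
        rw [show 2 * Real.log Y * Real.log z = Real.log Y * (2 * Real.log z) by ring, ← hlogz]
        linarith [sq (Real.log Y)]
      have h4 : 2 * Real.log Y ≤ Y := by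
        have h5 : Real.log z ≤ z - 1 := Real.log_le_sub_one_of_pos hz0
        have h6 : z ^ 2 = Y := by
          rw [hzd, Real.sq_sqrt hY0.le]
        rw [hlogz]
        nlinarith
      calc Real.log (Real.log Z / Real.log z) ≤ Real.log (2 * Real.log Y) :=
            Real.log_le_log (by positivity) h2
        _ ≤ Real.log Y := Real.log_le_log (by linarith) h4
    have hmi : ∀ s ∈ range k, 1 / 8 ≤ mi (Gp P0 B (P s) (P (s + 1))) ψ ε α := by
      intro s hs
      have hs := mem_range.1 hs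
      by_contra h
      rw [not_le] at h
      apply hαE
      rw [mem_biUnion]
      refine ⟨s, ?_, ?_⟩
      · rw [hIdx, mem_filter, mem_range]
        exact ⟨hklt s hs, (Real.log_le_log (hPpos _) (hPk s hs)).trans hZb1⟩
      · rw [hEs, mem_filter]
        refine ⟨hα, ?_⟩
        have := hS s
        linarith
    have hdisj : (↑(range k) : Set ℕ).PairwiseDisjoint
        (fun s => (Gp P0 B (P s) (P (s + 1))).filter (fun l : ℕ => ψ l α = - ε l)) := by
      have key : ∀ s t : ℕ, s < t → Disjoint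
          ((Gp P0 B (P s) (P (s + 1))).filter (fun l : ℕ => ψ l α = - ε l))
          ((Gp P0 B (P t) (P (t + 1))).filter (fun l : ℕ => ψ l α = - ε l)) := by
        intro s t hst
        rw [Finset.disjoint_left]
        intro l hl hl2
        rw [mem_filter, mem_Gp (hPpos _).le] at hl hl2
        have h1 : P (s + 1) ≤ P t := hmono hst
        linarith [hl.1.2.1, hl2.1.2.2.1]
      intro s _ t _ hst
      rcases lt_or_gt_of_ne hst with h | h
      · exact key s t h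
      · exact (key t s h).symm
    have hsub : (range k).biUnion
        (fun s => (Gp P0 B (P s) (P (s + 1))).filter (fun l : ℕ => ψ l α = - ε l)) ⊆
        (pr Z).filter (fun l : ℕ => Real.sqrt Y < (l : ℝ) ∧ ¬ l ∣ B ∧ l ∈ P0 ∧
            ψ l α = - ε l) := by
      intro l hl
      rw [mem_biUnion] at hl
      obtain ⟨s, hs, hl⟩ := hl
      have hs := mem_range.1 hs
      rw [mem_filter, mem_Gp (hPpos _).le] at hl
      rw [mem_filter, mem_pr hZ0.le, ← hzd]
      exact ⟨⟨hl.1.1, hl.1.2.1.trans (hPk s hs)⟩, lt_of_le_of_lt (hPz s) hl.1.2.2.1,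
        hl.1.2.2.2.1, hl.1.2.2.2.2, hl.2⟩
    have hfin : (k : ℝ) * (1 / 8) ≤
        ∑ l ∈ (pr Z).filter (fun l : ℕ => Real.sqrt Y < (l : ℝ) ∧ ¬ l ∣ B ∧ l ∈ P0 ∧
            ψ l α = - ε l), (1 : ℝ) / l := by
      calc (k : ℝ) * (1 / 8) = ∑ _s ∈ range k, (1 / 8 : ℝ) := by
            rw [sum_const, card_range, nsmul_eq_mul]
        _ ≤ ∑ s ∈ range k, mi (Gp P0 B (P s) (P (s + 1))) ψ ε α := sum_le_sum hmi
        _ = ∑ s ∈ range k, ∑ l ∈ (Gp P0 B (P s) (P (s + 1))).filter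
              (fun l : ℕ => ψ l α = - ε l), (1 : ℝ) / l := by
            apply sum_congr rfl
            intro s _
            unfold mi
            exact Finset.sum_congr (Finset.filter_congr fun _ _ => Iff.rfl) fun _ _ => rfl
        _ = ∑ l ∈ (range k).biUnion
              (fun s => (Gp P0 B (P s) (P (s + 1))).filter (fun l : ℕ => ψ l α = - ε l)),
              (1 : ℝ) / l := (Finset.sum_biUnion hdisj).symm
        _ ≤ _ := Finset.sum_le_sum_of_subset_of_nonneg hsub (fun l _ _ => by positivity)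
    have hA3 : b * Real.log (Real.log Z / Real.log Y) - 1 / 8 ≤ (k : ℝ) * (1 / 8) := by
      have h1 : b * Real.log (Real.log Z / Real.log Y) ≤ b * t :=
        mul_le_mul_of_nonneg_left htu hb0.le
      have h2 : b * t ≤ 1 / (8 * A) * t := mul_le_mul_of_nonneg_right hbA ht0
      have h3 : 1 / (8 * A) * t = t / A * (1 / 8) := by
        field_simp
      linarith
    refine (hA3.trans hfin).trans (le_of_eq ?_)
    exact Finset.sum_congr (Finset.filter_congr fun _ _ => Iff.rfl) fun _ _ => rfl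

end Pool.Agent.Q237.ESM
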