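import Pool.Agent.Q161.ESM.Stm2

/-!
# Project ESM (helper161), job KEY: the number of the types is at most the number of the characters
-/

set_option autoImplicit false

namespace Pool.Agent.Q237.ESM

open Pool.Agent.Q161.ESM

theorem card_ker_dual {U : Type} [AddCommGroup U] [Module (ZMod 2) U] [Finite U]
    (T : U →ₗ[ZMod 2] U) :
    Nat.card (LinearMap.ker T.dualMap) = Nat.card (LinearMap.ker T) := by
  haveI : Module.Finite (ZMod 2) U := Module.Finite.of_finite
  rw [Module.natCard_eq_pow_finrank (K := ZMod 2), Module.natCard_eq_pow_finrank (K := ZMod 2)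
    (V := LinearMap.ker T)]
  congr 1
  have h1 := LinearMap.finrank_range_add_finrank_ker T
  have h2 := LinearMap.finrank_range_add_finrank_ker T.dualMap
  rw [Subspace.dual_finrank_eq, LinearMap.finrank_range_dualMap_eq_finrank_range] at h2
  omega

theorem key : S_KEY := by
  intro G V _ _ _ _ h2 hsemi hinv S hS F t ht hFt
  classical
  letI : Module (ZMod 2) V := AddCommGroup.zmodModule (n := 2) (fun x => by
    rw [two_nsmul]
    exact h2 x)
  set W : AddSubgroup V := AddSubgroup.closure ((fun s => s - t) '' S) with hWdef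
  have hgen : ∀ s ∈ S, s - t ∈ W := fun s hs => AddSubgroup.subset_closure ⟨s, hs, rfl⟩
  have hW : GSt G W := by
    intro g v hv
    refine AddSubgroup.closure_induction (p := fun v _ => g • v ∈ W) ?_ ?_ ?_ ?_ hv
    · rintro x ⟨s, hs, rfl⟩
      have h1 : g • (s - t) = (g • s - t) - (g • t - t) := by
        rw [smul_sub]
        abel
      rw [h1]
      exact W.sub_mem (hgen _ (hS g s hs)) (hgen _ (hS g t ht))
    · rw [smul_zero]
      exact W.zero_mem
    · intro x y _ _ hx hy
      rw [smul_add]
      exact W.add_mem hx hy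
    · intro x _ hx
      rw [smul_neg]
      exact W.neg_mem hx
  obtain ⟨W', hW', hc⟩ := hsemi W hW
  set U : Submodule (ZMod 2) V := AddSubgroup.toZModSubmodule 2 W with hU
  set U' : Submodule (ZMod 2) V := AddSubgroup.toZModSubmodule 2 W' with hU'
  have hc' : IsCompl U U' := (OrderIso.isCompl_iff _).1 hc
  have hmU : ∀ v, v ∈ U ↔ v ∈ W := fun v => Iff.rfl
  have hmU' : ∀ v, v ∈ U' ↔ v ∈ W' := fun v => Iff.rfl
  set p : V →ₗ[ZMod 2] U := Submodule.linearProjOfIsCompl U U' hc' with hp
  have hpU : ∀ x : U, p x = x := fun x => Submodule.linearProjOfIsCompl_apply_left hc' x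
  have hpU' : ∀ x ∈ U', p x = 0 := fun x hx =>
    (Submodule.linearProjOfIsCompl_apply_eq_zero_iff hc').2 hx
  have hsub : ∀ v, v - p v ∈ U' := by
    intro v
    rw [← Submodule.linearProjOfIsCompl_ker hc', LinearMap.mem_ker, map_sub]
    show p v - p (p v) = 0
    rw [hpU, sub_self]
  have hpg : ∀ (g : G) (v : V), (p (g • v) : V) = g • (p v : V) := by
    intro g v
    have h1 : g • v = g • (p v : V) + g • (v - p v) := by
      rw [← smul_add]
      congr 1
      abel
    have h3 : g • (p v : V) ∈ U := hW g _ (p v).2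
    rw [h1, map_add, hpU' _ (hW' g _ (hsub v)), add_zero]
    have h4 := hpU ⟨g • (p v : V), h3⟩
    rw [h4]
  -- the linear map given by `F`
  obtain ⟨fl, hfl⟩ : ∃ fl : V →ₗ[ZMod 2] V, ∀ v, fl v = F • v :=
    ⟨AddMonoidHom.toZModLinearMap 2 (DistribMulAction.toAddMonoidHom V F), fun v => rfl⟩
  obtain ⟨T, hT⟩ : ∃ T : U →ₗ[ZMod 2] U, ∀ x : U, (T x : V) = F • (x : V) - x := by
    refine ⟨fl.restrict (p := U) (q := U) (fun x hx => ?_) - LinearMap.id, fun x => ?_⟩
    · rw [hfl]
      exact hW F x hx
    · rw [LinearMap.sub_apply, LinearMap.id_apply, Submodule.coe_sub, LinearMap.restrict_apply]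
      simp only [hfl]
  have hker : Nat.card (LinearMap.ker T) ≤ NS (fun s => F • s) S t := by
    rw [← card_ker_dual]
    unfold NS
    rw [← Nat.card_coe_set_eq]
    refine Nat.card_le_card_of_injective (fun ψ : LinearMap.ker T.dualMap =>
      (⟨fun s => if s ∈ S then (ψ : Module.Dual (ZMod 2) U) (p (s - t)) else 0, ?_⟩ :
        {h : V → ZMod 2 | ∃ φ : V →+ ZMod 2, (∀ s, φ (F • s) = φ s) ∧
          ∀ s, h s = if s ∈ S then φ (s - t) else 0})) ?_
    · refine ⟨((ψ : Module.Dual (ZMod 2) U) ∘ₗ p).toAddMonoidHom, fun s => ?_, fun s => rfl⟩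
      show (ψ : Module.Dual (ZMod 2) U) (p (F • s)) = (ψ : Module.Dual (ZMod 2) U) (p s)
      have h1 : (ψ : Module.Dual (ZMod 2) U) (T (p s)) = 0 := by
        have h3 : T.dualMap (ψ : Module.Dual (ZMod 2) U) = 0 := ψ.2
        have h4 := LinearMap.congr_fun h3 (p s)
        rwa [LinearMap.dualMap_apply] at h4
      have h5 : T (p s) = p (F • s) - p s := by
        apply Subtype.ext
        rw [hT, Submodule.coe_sub, hpg]
      rw [h5, map_sub, sub_eq_zero] at h1
      exact h1
    · intro ψ ψ' h
      have h1 : ∀ s ∈ S, (ψ : Module.Dual (ZMod 2) U) (p (s - t)) =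
          (ψ' : Module.Dual (ZMod 2) U) (p (s - t)) := by
        intro s hs
        have h3 := congrFun (congrArg Subtype.val h) s
        simpa only [if_pos hs] using h3
      apply Subtype.ext
      apply LinearMap.ext
      intro x
      have h3 : ∀ v ∈ W, (ψ : Module.Dual (ZMod 2) U) (p v) =
          (ψ' : Module.Dual (ZMod 2) U) (p v) := by
        intro v hv
        refine AddSubgroup.closure_induction (p := fun v _ =>
          (ψ : Module.Dual (ZMod 2) U) (p v) = (ψ' : Module.Dual (ZMod 2) U) (p v)) ?_ ?_ ?_ ?_ hv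
        · rintro x ⟨s, hs, rfl⟩
          exact h1 s hs
        · simp only [map_zero]
        · intro x y _ _ hx hy
          rw [map_add, map_add, map_add, hx, hy]
        · intro x _ hx
          rw [map_neg, map_neg, map_neg, hx]
      have h4 := h3 x x.2
      rwa [hpU] at h4
  refine ⟨?_, ?_⟩
  · refine le_trans ?_ hker
    rw [← Nat.card_coe_set_eq]
    refine Nat.card_le_card_of_injective (fun s : {s | s ∈ S ∧ F • s = s} =>
      (⟨⟨(s : V) - t, hgen _ s.2.1⟩, ?_⟩ : LinearMap.ker T)) ?_
    · rw [LinearMap.mem_ker]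
      apply Subtype.ext
      rw [hT]
      show F • ((s : V) - t) - ((s : V) - t) = 0
      rw [smul_sub, s.2.2, hFt, sub_self]
    · intro s s' h
      have h1 := congrArg (fun x : LinearMap.ker T => ((x : U) : V)) h
      apply Subtype.ext
      have h3 : (s : V) - t = (s' : V) - t := h1
      exact sub_left_inj.1 h3
  · intro hF hnS
    refine le_trans ?_ hker
    have h1 : LinearMap.ker T = ⊤ := by
      rw [LinearMap.ker_eq_top]
      apply LinearMap.ext
      intro x
      apply Subtype.ext
      rw [hT, hF, sub_self]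
      rfl
    rw [h1]
    have h3 : Nat.card (⊤ : Submodule (ZMod 2) U) = (W : Set V).ncard := by
      rw [← Nat.card_coe_set_eq]
      exact Nat.card_congr Submodule.topEquiv.toEquiv
    rw [h3]
    by_contra hcon
    have h4 : (W : Set V).ncard ≤ ((fun s => s - t) '' S).ncard := by
      rw [Set.ncard_image_of_injective _ sub_left_injective]
      omega
    have h5 : (fun s => s - t) '' S = (W : Set V) :=
      Set.eq_of_subset_of_ncard_le AddSubgroup.subset_closure h4 (Set.toFinite _)
    have hmem : ∀ v, v - t ∈ W → v ∈ S := by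
      intro v hv
      have h6 : v - t ∈ (fun s => s - t) '' S := by
        rw [h5]
        exact hv
      obtain ⟨s, hs, hs2⟩ := h6
      have h7 : s = v := sub_left_inj.1 hs2
      rwa [← h7]
    have htW : t ∈ W := by
      have h6 : t - (p t : V) = 0 := by
        refine hinv _ fun g => ?_
        have h7 : g • (t - (p t : V)) - (t - (p t : V)) ∈ W' :=
          W'.sub_mem (hW' g _ (hsub t)) (hsub t)
        have h8 : g • (t - (p t : V)) - (t - (p t : V)) ∈ W := by
          have h9 : g • (t - (p t : V)) - (t - (p t : V)) =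
              (g • t - t) - (g • (p t : V) - p t) := by
            rw [smul_sub]
            abel
          rw [h9]
          exact W.sub_mem (hgen _ (hS g t ht)) (W.sub_mem (hW g _ (p t).2) (p t).2)
        have h10 : g • (t - (p t : V)) - (t - (p t : V)) ∈ W ⊓ W' := ⟨h8, h7⟩
        rw [hc.inf_eq_bot, AddSubgroup.mem_bot] at h10
        exact sub_eq_zero.1 h10
      rw [sub_eq_zero.1 h6]
      exact (p t).2
    apply hnS
    refine ⟨hmem 0 ?_, fun a ha b hb => hmem _ ?_⟩
    · rw [zero_sub]
      exact W.neg_mem htW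
    · have h6 : a + b - t = (a - t) + (b - t) + t := by abel
      rw [h6]
      exact W.add_mem (W.add_mem (hgen a ha) (hgen b hb)) htW

end Pool.Agent.Q237.ESM
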