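import Pool.Agent.Q161.ESM.Stm3
import Pool.Agent.Q299.ESM.N1f
import Pool.Agent.Q239.EL.NV
import Pool.Agent.Q161.SX.Emb
import Pool.Agent.Q63.EA.Exc0
import Pool.Agent.Q91.EL.Small

/-!
# Project ESM (helper161): tools for the jobs TYP, QA, QM
-/

set_option autoImplicit false

namespace Pool.Agent.Q237.ESM

open Polynomial NumberField IsDedekindDomain
open Pool.Agent.Q51.EL (Abv Par Setup)
open Pool.Agent.Q161.ESM

section val

variable {K : Type} [Field K] [NumberField K] {L : Type} [Field L] [NumberField L]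

theorem val_l {w : HeightOneSpectrum (𝓞 K)} {l : ℕ} (hl : l.Prime)
    (hsq : Squarefree (Ideal.span {(l : 𝓞 K)})) (hw : Abv w l) :
    w.valuation K (l : K) = WithZero.exp (-1 : ℤ) := by
  haveI : Fact l.Prime := ⟨hl⟩
  have h0 : (l : 𝓞 K) ≠ 0 := by exact_mod_cast hl.ne_zero
  have h1 := Pool.Agent.Q239.EL.val_int w h0
  rw [Pool.Agent.Q239.EL.mu_l hsq hw] at h1
  have e : ((l : 𝓞 K) : K) = (l : K) := by simp
  rw [e] at h1
  rw [h1]
  rfl

/-- the prime below `w` via `e` -/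
noncomputable def bl (e : L →+* K) (w : HeightOneSpectrum (𝓞 K)) {l : ℕ} (hl : l.Prime)
    (hw : Abv w l) : HeightOneSpectrum (𝓞 L) where
  asIdeal := Ideal.comap (RingOfIntegers.mapRingHom e) w.asIdeal
  isPrime := by
    haveI := w.isPrime
    exact Ideal.comap_isPrime _ _
  ne_bot := by
    intro h
    have h1 : (l : 𝓞 L) ∈ Ideal.comap (RingOfIntegers.mapRingHom e) w.asIdeal := by
      rw [Ideal.mem_comap, map_natCast]
      exact hw
    rw [h, Ideal.mem_bot] at h1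
    exact hl.ne_zero (Nat.cast_eq_zero.1 h1)

theorem mem_bl (e : L →+* K) (w : HeightOneSpectrum (𝓞 K)) {l : ℕ} (hl : l.Prime)
    (hw : Abv w l) (x : 𝓞 L) :
    x ∈ (bl e w hl hw).asIdeal ↔ RingOfIntegers.mapRingHom e x ∈ w.asIdeal := Iff.rfl

theorem abv_bl (e : L →+* K) (w : HeightOneSpectrum (𝓞 K)) {l : ℕ} (hl : l.Prime)
    (hw : Abv w l) : Abv (bl e w hl hw) l := by
  show (l : 𝓞 L) ∈ Ideal.comap (RingOfIntegers.mapRingHom e) w.asIdeal
  rw [Ideal.mem_comap, map_natCast]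
  exact hw

theorem val_bl (e : L →+* K) (w : HeightOneSpectrum (𝓞 K)) {l : ℕ} (hl : l.Prime)
    (hw : Abv w l) (hsq : Squarefree (Ideal.span {(l : 𝓞 K)})) (x : L) :
    w.valuation K (e x) = (bl e w hl hw).valuation L x := by
  letI : Algebra L K := e.toAlgebra
  haveI : w.asIdeal.LiesOver (bl e w hl hw).asIdeal := ⟨rfl⟩
  have h1 := HeightOneSpectrum.valuation_liesOver K (bl e w hl hw) w x
  have h2 := HeightOneSpectrum.valuation_liesOver K (bl e w hl hw) w (l : L)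
  have h3 : algebraMap L K (l : L) = (l : K) := map_natCast e l
  rw [h3, val_l hl hsq hw] at h2
  have h0 : (l : 𝓞 L) ≠ 0 := by exact_mod_cast hl.ne_zero
  have h4 := Pool.Agent.Q239.EL.val_int (bl e w hl hw) h0
  have h5 : ((l : 𝓞 L) : L) = (l : L) := by simp
  rw [h5] at h4
  rw [h4, ← WithZero.exp_nsmul, WithZero.exp_inj] at h2
  have h6 : (bl e w hl hw).asIdeal.ramificationIdx' w.asIdeal = 1 := by
    rw [nsmul_eq_mul, mul_neg, neg_inj] at h2
    have h7 : (bl e w hl hw).asIdeal.ramificationIdx' w.asIdeal *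
        Pool.Agent.Q239.EL.mu (bl e w hl hw) (Ideal.span {(l : 𝓞 L)}) = 1 := by exact_mod_cast h2
    exact Nat.eq_one_of_mul_eq_one_right h7
  rw [h6, pow_one] at h1
  exact h1.symm

theorem gal_range [IsGalois ℚ K] (e : L →+* K) (x : K)
    (h : ∀ g : K ≃ₐ[ℚ] K, (∀ y, g (e y) = e y) → g x = x) : ∃ y, e y = x := by
  letI : Algebra L K := e.toAlgebra
  haveI : IsGalois L K := IsGalois.tower_top_of_isGalois ℚ L K
  have h1 := (IsGalois.mem_range_algebraMap_iff_fixed (F := L) (E := K) x).2 (fun f => by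
    have h2 := h (AlgEquiv.restrictScalars ℚ f) (fun y => f.commutes y)
    exact h2)
  exact h1

theorem trans_emb [IsGalois ℚ K] (e e' : L →+* K) : ∃ g : K ≃ₐ[ℚ] K, ∀ y, g (e y) = e' y := by
  letI : Algebra L K := e.toAlgebra
  let φ : L →ₐ[ℚ] K := e'.toRatAlgHom
  let ψ : K →ₐ[ℚ] K := AlgHom.liftNormal φ K
  have h1 : Function.Bijective ψ := Algebra.IsAlgebraic.algHom_bijective ψ
  refine ⟨AlgEquiv.ofBijective ψ h1, fun y => ?_⟩
  exact AlgHom.liftNormal_commutes φ K y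

end val

section fld

variable {J : Type} {K : Type} [Field K] [NumberField K] {L : J → Type} [∀ j, Field (L j)]
  [∀ j, NumberField (L j)] {f : J → ℤ[X]} {tt : (j : J) → 𝓞 (L j)}
  {io : (j : J) → Fin 3 → (L j →+* K)} {V : Type} [AddCommGroup V]
  [DistribMulAction (K ≃ₐ[ℚ] K) V] {pm : (K ≃ₐ[ℚ] K) → J → Fin 3 → Fin 3}
  {cd : V →+ (J → Fin 3 → ZMod 2)}

theorem pm_of (hF : Fld f tt io) (hV : VS io pm cd) {g : K ≃ₐ[ℚ] K} {j : J} {k k' : Fin 3}
    (h : ∀ y, g (io j k y) = io j k' y) : pm g j k = k' := by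
  apply (hF.bij j).1
  ext y
  rw [← hV.emb, h]

theorem exists_pm [IsGalois ℚ K] (hF : Fld f tt io) (hV : VS io pm cd) (j : J) (k k' : Fin 3) :
    ∃ g : K ≃ₐ[ℚ] K, pm g j k = k' := by
  obtain ⟨g, hg⟩ := trans_emb (io j k) (io j k')
  exact ⟨g, pm_of hF hV hg⟩

theorem pm_inj (hF : Fld f tt io) (hV : VS io pm cd) (g : K ≃ₐ[ℚ] K) (j : J) :
    Function.Injective (pm g j) := by
  intro k k' h
  apply (hF.bij j).1
  ext y
  apply g.injective
  rw [hV.emb, hV.emb, h]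

theorem exists_bl [IsGalois ℚ K] (hV : VS io pm cd) (w : HeightOneSpectrum (𝓞 K)) {l : ℕ}
    (hl : l.Prime) (hw : Abv w l) (j : J) (v : HeightOneSpectrum (𝓞 (L j))) (hv : Abv v l) :
    ∃ k, v = bl (io j k) w hl hw := by
  haveI := w.isPrime
  obtain ⟨g, hg⟩ := Pool.Agent.Q299.ESM.exists_pb (io j 0) w.asIdeal hl hw v hv
  refine ⟨pm g j 0, ?_⟩
  rw [hg]
  apply HeightOneSpectrum.ext
  ext x
  rw [mem_bl]
  show x ∈ RingHom.ker (Pool.Agent.Q299.ESM.ph (io j 0) w.asIdeal g) ↔ _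
  rw [RingHom.mem_ker, Pool.Agent.Q299.ESM.ph_apply, Ideal.Quotient.eq_zero_iff_mem]
  have h1 : g • RingOfIntegers.mapRingHom (io j 0) x =
      RingOfIntegers.mapRingHom (io j (pm g j 0)) x := by
    apply FaithfulSMul.algebraMap_injective (𝓞 K) K
    show g (io j 0 (x : L j)) = io j (pm g j 0) (x : L j)
    exact hV.emb g j 0 _
  rw [h1]

/-- the differences of the conjugates of `tt j` -/
noncomputable def df (tt : (j : J) → 𝓞 (L j)) (io : (j : J) → Fin 3 → (L j →+* K))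
    (j : J) (k k' : Fin 3) : 𝓞 K :=
  RingOfIntegers.mapRingHom (io j k) (tt j) - RingOfIntegers.mapRingHom (io j k') (tt j)

theorem df_ne (hF : Fld f tt io) (j : J) {k k' : Fin 3} (h : k ≠ k') : df tt io j k k' ≠ 0 := by
  intro h1
  apply h
  apply (hF.bij j).1
  have h2 : io j k (tt j : L j) = io j k' (tt j : L j) := by
    have h3 := sub_eq_zero.1 h1
    exact congrArg (fun z : 𝓞 K => (z : K)) h3
  have h3 : (io j k).toRatAlgHom = (io j k').toRatAlgHom :=
    Pool.Agent.Q161.SX.Setup.hom_ext (hF.set j) h2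
  ext y
  exact AlgHom.congr_fun h3 y

/-- the bad primes -/
theorem exists_B [Fintype J] (hF : Fld f tt io) : ∃ B1 : ℕ, B1 ≠ 0 ∧ ∀ l : ℕ, l.Prime → ¬ l ∣ B1 →
    Squarefree (Ideal.span {(l : 𝓞 K)}) ∧ ∀ w : HeightOneSpectrum (𝓞 K), Abv w l →
      ∀ (j : J) (k k' : Fin 3), k ≠ k' → df tt io j k k' ∉ w.asIdeal := by
  classical
  obtain ⟨⟨B0, hB0, hB⟩, -⟩ := Pool.Agent.Q91.EL.ram K
  refine ⟨B0 * ∏ j : J, ∏ k : Fin 3, ∏ k' : Fin 3,
    (if k = k' then 1 else Ideal.absNorm (Ideal.span {df tt io j k k'})), ?_, ?_⟩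
  · refine mul_ne_zero hB0 (Finset.prod_ne_zero_iff.2 fun j _ => Finset.prod_ne_zero_iff.2
      fun k _ => Finset.prod_ne_zero_iff.2 fun k' _ => ?_)
    split_ifs with h
    · exact one_ne_zero
    · rw [Ne, Ideal.absNorm_eq_zero_iff, Ideal.span_singleton_eq_bot]
      exact df_ne hF j h
  · intro l hl hlB
    refine ⟨hB l hl fun h => hlB (h.mul_right _), fun w hw j k k' hkk' hmem => hlB ?_⟩
    refine Dvd.dvd.mul_left ?_ _
    have h1 : l ∣ Ideal.absNorm (Ideal.span {df tt io j k k'}) :=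
      Pool.Agent.Q63.EA.dvd_absNorm hl (fun h => h w hw hmem)
    have h2 : (if k = k' then 1 else Ideal.absNorm (Ideal.span {df tt io j k k'})) ∣
        ∏ j : J, ∏ k : Fin 3, ∏ k' : Fin 3,
          (if k = k' then 1 else Ideal.absNorm (Ideal.span {df tt io j k k'})) :=
      ((Finset.dvd_prod_of_mem (fun k' => if k = k' then 1 else
        Ideal.absNorm (Ideal.span {df tt io j k k'})) (Finset.mem_univ k')).trans
        (Finset.dvd_prod_of_mem (fun k => ∏ k' : Fin 3, (if k = k' then 1 else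
        Ideal.absNorm (Ideal.span {df tt io j k k'}))) (Finset.mem_univ k))).trans
        (Finset.dvd_prod_of_mem (fun j => ∏ k : Fin 3, ∏ k' : Fin 3, (if k = k' then 1 else
        Ideal.absNorm (Ideal.span {df tt io j k k'}))) (Finset.mem_univ j))
    rw [if_neg hkk'] at h2
    exact h1.trans h2

/-- `Tz` and `Tm` are exclusive -/
theorem not_Tz_Tm {t : V} {j : J} {k : Fin 3} (h1 : Tz cd t j) (h2 : Tm cd t j k) : False := by
  obtain ⟨k', hk'⟩ : ∃ k' : Fin 3, k' ≠ k := exists_ne k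
  have h3 := h2.2 k' hk'
  rw [h1 k'] at h3
  exact absurd h3 (by decide)

theorem Tm_unique {t : V} {j : J} {k k' : Fin 3} (h1 : Tm cd t j k) (h2 : Tm cd t j k') :
    k = k' := by
  by_contra h
  have h3 := h2.2 k h
  rw [h1.1] at h3
  exact absurd h3 (by decide)

end fld

end Pool.Agent.Q237.ESM
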