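import Pool.Agent.Q237.ESM.Tl

/-!
# Project ESM (helper161), job TYP: the type of a prime
-/

set_option autoImplicit false

namespace Pool.Agent.Q237.ESM

open Polynomial NumberField IsDedekindDomain
open Pool.Agent.Q51.EL (Abv Par Setup)
open Pool.Agent.Q161.ESM
open Pool.Agent.Q161.OS (Gd)

section fld

variable {J : Type} {K : Type} [Field K] [NumberField K] {L : J → Type} [∀ j, Field (L j)]
  [∀ j, NumberField (L j)] {f : J → ℤ[X]} {tt : (j : J) → 𝓞 (L j)}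
  {io : (j : J) → Fin 3 → (L j →+* K)} {V : Type} [AddCommGroup V]
  [DistribMulAction (K ≃ₐ[ℚ] K) V] {pm : (K ≃ₐ[ℚ] K) → J → Fin 3 → Fin 3}
  {cd : V →+ (J → Fin 3 → ZMod 2)}

theorem sum_ind : ∀ k : Fin 3, ∑ k' : Fin 3, (if k' = k then (0 : ZMod 2) else 1) = 0 := by
  decide

theorem exp_ne_one : (WithZero.exp (-1 : ℤ)) ≠ (1 : WithZero (Multiplicative ℤ)) := by
  rw [← WithZero.exp_zero, Ne, WithZero.exp_inj]
  norm_num

theorem bl_unique {w : HeightOneSpectrum (𝓞 K)} {l : ℕ} (hl : l.Prime) (hw : Abv w l) {j : J}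
    {k k' : Fin 3} (hdf : df tt io j k k' ∉ w.asIdeal) {v0 : HeightOneSpectrum (𝓞 (L j))} {r : ℤ}
    (hr : tt j - (r : 𝓞 (L j)) ∈ v0.asIdeal) (h1 : bl (io j k) w hl hw = v0)
    (h2 : bl (io j k') w hl hw = v0) : False := by
  apply hdf
  have h3 : tt j - (r : 𝓞 (L j)) ∈ (bl (io j k) w hl hw).asIdeal := by rw [h1]; exact hr
  have h4 : tt j - (r : 𝓞 (L j)) ∈ (bl (io j k') w hl hw).asIdeal := by rw [h2]; exact hr
  rw [mem_bl, map_sub, map_intCast] at h3 h4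
  have h5 := w.asIdeal.sub_mem h3 h4
  unfold df
  have e : RingOfIntegers.mapRingHom (io j k) (tt j) - (r : 𝓞 K) -
      (RingOfIntegers.mapRingHom (io j k') (tt j) - (r : 𝓞 K)) =
      RingOfIntegers.mapRingHom (io j k) (tt j) - RingOfIntegers.mapRingHom (io j k') (tt j) := by
    ring
  rwa [e] at h5

/-- the `j`-th component of the type -/
theorem comp [IsGalois ℚ K] (hV : VS io pm cd) {B : ℕ} {κ D m : ℤ} {j : J} {α : 𝓞 (L j)}
    (hG : Gd B (tt j) κ D α m) {l : ℕ} (hl : l.Prime) (hlB : ¬ l ∣ B) (hlD : (l : ℤ) ∣ D)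
    (hsq : Squarefree (Ideal.span {(l : 𝓞 K)})) {w : HeightOneSpectrum (𝓞 K)} (hw : Abv w l)
    (hdf : ∀ k k' : Fin 3, k ≠ k' → df tt io j k k' ∉ w.asIdeal) :
    ((l : ℤ) ∣ m ∧ ∀ k, w.valuation K (io j k (α : L j)) = 1) ∨
    (¬ (l : ℤ) ∣ m ∧ ∃ k, w.valuation K (io j k (α : L j)) = WithZero.exp (-1 : ℤ) ∧
      ∀ k', k' ≠ k → w.valuation K (io j k' (α : L j)) = 1) := by
  rcases hG.odd l hl hlB hlD with ⟨h1, h2, -⟩ | ⟨h1, v0, h2, -, h4, h5, r, h6, -⟩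
  · refine Or.inl ⟨h1, fun k => ?_⟩
    rw [val_bl (io j k) w hl hw hsq]
    exact h2 _ (abv_bl _ _ _ _)
  · refine Or.inr ⟨h1, ?_⟩
    obtain ⟨k, hk⟩ := exists_bl hV w hl hw j v0 h2
    refine ⟨k, ?_, fun k' hk' => ?_⟩
    · rw [val_bl (io j k) w hl hw hsq, ← hk]
      exact h4
    · rw [val_bl (io j k') w hl hw hsq]
      refine h5 _ (abv_bl _ _ _ _) fun h7 => ?_
      exact bl_unique hl hw (hdf k' k hk') h6 h7 hk.symm

theorem typ : S_TYP := by
  intro J _ f L _ _ K _ _ _ tt io hF V _ _ pm cd hV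
  obtain ⟨B1, hB1, hB⟩ := exists_B (K := K) hF
  refine ⟨B1, hB1, fun B hBB κ D α m _ hG l hl hlB w hw => ?_⟩
  obtain ⟨hsq, hdf⟩ := hB l hl fun h => hlB (h.trans hBB)
  refine ⟨fun hlD => ?_, fun hlD j k => ?_⟩
  · have hc := fun j => comp hV (hG j) hl hlB hlD hsq hw (hdf w hw j)
    choose e he1 he2 using fun j => (show ∃ e : Fin 3 → ZMod 2, (∑ k, e k = 0) ∧
        (((l : ℤ) ∣ m j ∧ (∀ k, e k = 0) ∧ ∀ k, w.valuation K (io j k (α j : L j)) = 1) ∨
        (¬ (l : ℤ) ∣ m j ∧ ∃ k, (e k = 0 ∧ ∀ k', k' ≠ k → e k' = 1) ∧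
          w.valuation K (io j k (α j : L j)) = WithZero.exp (-1 : ℤ) ∧
          ∀ k', k' ≠ k → w.valuation K (io j k' (α j : L j)) = 1)) from by
      rcases hc j with ⟨h1, h2⟩ | ⟨h1, k, h2, h3⟩
      · exact ⟨fun _ => 0, by simp, Or.inl ⟨h1, fun _ => rfl, h2⟩⟩
      · exact ⟨fun k' => if k' = k then 0 else 1, sum_ind k, Or.inr ⟨h1, k, ⟨by simp,
          fun k' hk' => by simp [hk']⟩, h2, h3⟩⟩)
    obtain ⟨t, ht⟩ := (hV.im e).2 he1
    refine ⟨t, fun j => ?_, fun t' ht' => ?_⟩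
    · rcases he2 j with ⟨h1, h2, h3⟩ | ⟨h1, k, h2, h3, h4⟩
      · refine Or.inl ⟨h1, fun k => ?_, h3⟩
        rw [ht]
        exact h2 k
      · refine Or.inr ⟨h1, k, ⟨?_, fun k' hk' => ?_⟩, h3, h4⟩
        · rw [ht]
          exact h2.1
        · rw [ht]
          exact h2.2 k' hk'
    · apply hV.inj
      rw [ht]
      funext j
      rcases he2 j with ⟨h1, h2, h3⟩ | ⟨h1, k, h2, h3, h4⟩
      · rcases ht' j with ⟨q1, q2, q3⟩ | ⟨q1, -⟩
        · funext k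
          rw [h2, q2]
        · exact absurd h1 q1
      · rcases ht' j with ⟨q1, -⟩ | ⟨q1, k1, q2, q3, q4⟩
        · exact absurd q1 h1
        · have hk : k1 = k := by
            by_contra hne
            have h5 := h4 k1 hne
            rw [q3] at h5
            exact exp_ne_one h5
          subst hk
          funext k'
          by_cases hk' : k' = k1
          · rw [hk', q2.1, h2.1]
          · rw [q2.2 k' hk', h2.2 k' hk']
  · rw [val_bl (io j k) w hl hw hsq]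
    exact ((hG j).even l hl hlB hlD).2 _ (abv_bl _ _ _ _)

end fld

end Pool.Agent.Q237.ESM
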